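import Mathlib
import Pool.Agent.W521.Count

/-! The coefficients of `x ^ g h (x + q / x)` and powers of `p`. -/

set_option autoImplicit false

namespace Pool.Agent.N205.NS

open Polynomial Pool.Agent.W521.Frob Pool.Agent.W521.Lower

theorem coeff_sq_add_pow (q : ℤ) (k N : ℕ) :
    ((X ^ 2 + C q) ^ k : ℤ[X]).coeff N =
      if 2 ∣ N then q ^ (k - N / 2) * (k.choose (N / 2) : ℤ) else 0 := by
  have h1 : ((X ^ 2 + C q) ^ k : ℤ[X]) = expand ℤ 2 ((X + C q) ^ k) := by
    rw [map_pow, map_add, expand_X, expand_C]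
  rw [h1, coeff_expand two_pos]
  split_ifs
  · rw [coeff_X_add_C_pow]
  · rfl

/-- The term of index `k` of the coefficient of index `2 g - j`. -/
theorem weil_coeff_sum (q : ℕ) (h : ℤ[X]) (j : ℕ) (hj : j ≤ h.natDegree) :
    (weil q h).coeff (2 * h.natDegree - j) = ∑ k ∈ Finset.range (h.natDegree + 1),
      h.coeff k * ((X ^ 2 + C (q : ℤ)) ^ k : ℤ[X]).coeff (h.natDegree + k - j) := by
  unfold weil
  rw [finsetSum_coeff]
  refine Finset.sum_congr rfl fun k hk => ?_
  have hk' : k ≤ h.natDegree := by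
    have := Finset.mem_range.1 hk
    omega
  rw [coeff_C_mul]
  congr 1
  have h1 : 2 * h.natDegree - j = (h.natDegree + k - j) + (h.natDegree - k) := by omega
  rw [h1, coeff_mul_X_pow]

/-- The coefficient of index `2 g - j` of `weil q h` is the coefficient of index `g - j` of `h` up to
the given multiples. -/
theorem weil_coeff_congr {p a : ℕ} (h : ℤ[X]) (j : ℕ) (hj : j ≤ h.natDegree) (m : ℕ → ℕ) (M : ℕ)
    (hdvd : ∀ i, 0 < i → 2 * i ≤ j → (p : ℤ) ^ m (j - 2 * i) ∣ h.coeff (h.natDegree - (j - 2 * i)))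
    (hM : ∀ i, 0 < i → 2 * i ≤ j → M ≤ m (j - 2 * i) + a * i) :
    (p : ℤ) ^ M ∣ (weil (p ^ a) h).coeff (2 * h.natDegree - j) - h.coeff (h.natDegree - j) := by
  classical
  rw [weil_coeff_sum _ h j hj]
  have hmem : h.natDegree - j ∈ Finset.range (h.natDegree + 1) := by
    rw [Finset.mem_range]; omega
  rw [← Finset.add_sum_erase _ _ hmem]
  have h0 : ((X ^ 2 + C (((p ^ a : ℕ)) : ℤ)) ^ (h.natDegree - j) : ℤ[X]).coeff
      (h.natDegree + (h.natDegree - j) - j) = 1 := by
    rw [coeff_sq_add_pow]
    have e : h.natDegree + (h.natDegree - j) - j = 2 * (h.natDegree - j) := by omega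
    rw [e, if_pos (Dvd.intro _ rfl), Nat.mul_div_cancel_left _ two_pos, Nat.sub_self, pow_zero,
      Nat.choose_self]
    norm_num
  rw [h0, mul_one, add_sub_cancel_left]
  refine Finset.dvd_sum fun k hk => ?_
  obtain ⟨hk1, hk2⟩ := Finset.mem_erase.1 hk
  rw [Finset.mem_range] at hk2
  rw [coeff_sq_add_pow]
  split_ifs with h2
  · obtain ⟨N, hN⟩ := h2
    rw [hN, Nat.mul_div_cancel_left _ two_pos]
    rcases Nat.lt_or_ge k N with hlt | hge
    · rw [Nat.choose_eq_zero_of_lt hlt]
      simp
    · -- `k - N = i`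
      obtain ⟨i, hi⟩ : ∃ i, k = N + i := ⟨k - N, by omega⟩
      have hi0 : 0 < i := by
        rcases Nat.eq_zero_or_pos i with h3 | h3
        · exfalso; apply hk1; omega
        · exact h3
      have h2i : 2 * i ≤ j := by omega
      have hk3 : k = h.natDegree - (j - 2 * i) := by omega
      have h4 := hdvd i hi0 h2i
      rw [← hk3] at h4
      have h5 : k - N = i := by omega
      rw [h5]
      have h6 : (p : ℤ) ^ (m (j - 2 * i) + a * i) ∣ h.coeff k * (((p ^ a : ℕ) : ℤ) ^ i * (k.choose N : ℤ)) := by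
        rw [pow_add]
        refine mul_dvd_mul h4 ?_
        push_cast
        rw [← pow_mul]
        exact Dvd.intro _ rfl
      exact (pow_dvd_pow _ (hM i hi0 h2i)).trans h6
  · rw [mul_zero]
    exact dvd_zero _

/-- The coefficients of the Dickson polynomials. -/
theorem dick_coeff_aux (q : ℕ) (n : ℕ) : (∀ k i, k + 2 * i = n → (q : ℤ) ^ i ∣ (dick q n).coeff k) ∧
    (∀ k i, k + 2 * i + 1 = n → (dick q n).coeff k = 0) ∧
    (∀ k i, k + 2 * i = n + 1 → (q : ℤ) ^ i ∣ (dick q (n + 1)).coeff k) ∧
    (∀ k i, k + 2 * i + 1 = n + 1 → (dick q (n + 1)).coeff k = 0) := by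
  induction n with
  | zero =>
    refine ⟨?_, ?_, ?_, ?_⟩
    · intro k i h
      have : i = 0 := by omega
      subst this
      simp
    · intro k i h; omega
    · intro k i h
      have h1 : i = 0 := by omega
      subst h1
      simp
    · intro k i h
      have h1 : k = 0 := by omega
      subst h1
      simp [dick]
  | succ n ih =>
    obtain ⟨h1, h2, h3, h4⟩ := ih
    refine ⟨h3, h4, ?_, ?_⟩
    · intro k i h
      have h7 : dick q (n + 1 + 1) = X * dick q (n + 1) - C (q : ℤ) * dick q n := rfl
      rw [h7, coeff_sub, coeff_C_mul]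
      refine dvd_sub ?_ ?_
      · rcases k with _ | k
        · simp
        · rw [coeff_X_mul]
          exact h3 k i (by omega)
      · rcases i with _ | i
        · simp
        · rw [pow_succ, mul_comm ((q : ℤ) ^ i)]
          exact mul_dvd_mul_left _ (h1 k i (by omega))
    · intro k i h
      have h7 : dick q (n + 1 + 1) = X * dick q (n + 1) - C (q : ℤ) * dick q n := rfl
      rw [h7, coeff_sub, coeff_C_mul]
      have e1 : (X * dick q (n + 1)).coeff k = 0 := by
        rcases k with _ | k
        · simp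
        · rw [coeff_X_mul]
          exact h4 k i (by omega)
      have e2 : (dick q n).coeff k = 0 := by
        rcases i with _ | i
        · -- degree
          have h8 := (dick_deg q n).2.2
          exact coeff_eq_zero_of_natDegree_lt (by omega)
        · exact h2 k i (by omega)
      rw [e1, e2]
      simp

end Pool.Agent.N205.NS
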