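import Mathlib
import Pool.Agent.W521.Descent

/-! Newton strata and `p`-rank strata of Weil polynomials: definitions. -/

set_option autoImplicit false

namespace Pool.Agent.N205.NS

open Polynomial Pool.Agent.W521.Descent

/-- Valuations `m j` of the coefficients, with the set `T` of the indices for which they are exact. -/
structure IsData (a g : ℕ) (m : ℕ → ℕ) (T : ℕ → Prop) : Prop where
  zero : m 0 = 0
  step : ∀ j i, 0 < i → 2 * i ≤ j → j ≤ g → m j ≤ m (j - 2 * i) + a * i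
  step_lt : ∀ j i, T j → 0 < i → 2 * i ≤ j → j ≤ g → m j + 1 ≤ m (j - 2 * i) + a * i

/-- the closed stratum -/
def Closed (p a g : ℕ) (m : ℕ → ℕ) : Set ℤ[X] :=
  {f ∈ weilPolys (p ^ a) g | ∀ j, j ≤ g → (p : ℤ) ^ m j ∣ f.coeff (2 * g - j)}

/-- the open stratum -/
def Open (p a g : ℕ) (m : ℕ → ℕ) (T : ℕ → Prop) : Set ℤ[X] :=
  {f ∈ Closed p a g m | ∀ j, 1 ≤ j → j ≤ g → T j → ¬ (p : ℤ) ^ (m j + 1) ∣ f.coeff (2 * g - j)}

/-- `S` lies between an open and a closed stratum of Weil polynomials (of degree `2 g`, over the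
field with `p ^ a` elements) defined by lower bounds `m j` for the valuations of the coefficients of
index `2 g - j`, exact for the `j` in `T`, such that `t + 2 * m j ≤ a * j` for `1 ≤ j ≤ g`. -/
def IsStratum (p a g t : ℕ) (S : Set ℤ[X]) : Prop :=
  ∃ (m : ℕ → ℕ) (T : ℕ → Prop), IsData a g m T ∧ (∀ j, 1 ≤ j → j ≤ g → t + 2 * m j ≤ a * j) ∧
    Open p a g m T ⊆ S ∧ S ⊆ Closed p a g m

/-- `j` is a break point of the polygon with first half `b 0, …, b g`. -/
def IsBreak (a g : ℕ) (b : ℕ → ℝ) (j : ℕ) : Prop :=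
  (1 ≤ j ∧ j < g ∧ b j - b (j - 1) < b (j + 1) - b j) ∨ (j = g ∧ b g - b (g - 1) < a / 2)

/-- `b 0, …, b g` is the first half of an admissible symmetric Newton polygon: it starts at `0`, is
convex, its slopes are between `0` and `a / 2`, and its break points are integral (the point of
index `g` is a break point if the last slope is smaller than `a / 2`). -/
structure IsHalfPolygon (a g : ℕ) (b : ℕ → ℝ) : Prop where
  zero : b 0 = 0
  nonneg : 0 ≤ b 1
  convex : ∀ j, 1 ≤ j → j < g → b j - b (j - 1) ≤ b (j + 1) - b j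
  slope_le : b g - b (g - 1) ≤ a / 2
  integral : ∀ j, IsBreak a g b j → ∃ n : ℕ, b j = n

/-- The Weil polynomials whose Newton polygon lies on or above the polygon with first half `b`. -/
def aboveNewton (p a g : ℕ) (b : ℕ → ℝ) : Set ℤ[X] :=
  {f ∈ weilPolys (p ^ a) g | ∀ j, j ≤ g → (p : ℤ) ^ ⌈b j⌉₊ ∣ f.coeff (2 * g - j)}

/-- The Weil polynomials whose Newton polygon is the polygon with first half `b`. -/
def withNewton (p a g : ℕ) (b : ℕ → ℝ) : Set ℤ[X] :=
  {f ∈ aboveNewton p a g b | ∀ j, 1 ≤ j → j ≤ g → IsBreak a g b j →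
    ¬ (p : ℤ) ^ (⌈b j⌉₊ + 1) ∣ f.coeff (2 * g - j)}

/-- The Weil polynomials of `p`-rank `r`. -/
def withRank (p a g r : ℕ) : Set ℤ[X] :=
  {f ∈ weilPolys (p ^ a) g | ¬ (p : ℤ) ∣ f.coeff (2 * g - r) ∧
    ∀ j, r < j → j ≤ g → (p : ℤ) ∣ f.coeff (2 * g - j)}

/-- Newton strata and `p`-rank strata are strata. First part: the sets of Weil polynomials whose
Newton polygon is (or: lies on or above) the polygon with first half `b`; the integer `t` may be any
number with `t + 1 ≤ a * (1 - 2 * λ)`, `a * λ = b 1` the first slope, or any number `t ≤ a` if the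
`p`-rank is at least two (`b 2 = 0`), or any number with `t + 2 * ⌈b j⌉ ≤ a * j` for
`1 ≤ j ≤ g`. Second part: the sets of Weil polynomials of `p`-rank `r`. -/
def StrataFacts : Prop :=
  (∀ (p a g t : ℕ) (b : ℕ → ℝ), 0 < a → IsHalfPolygon a g b →
    ((t : ℝ) + 1 ≤ a - 2 * b 1 ∨ (2 ≤ g ∧ b 2 = 0 ∧ t ≤ a) ∨
      ∀ j, 1 ≤ j → j ≤ g → t + 2 * ⌈b j⌉₊ ≤ a * j) →
    ∀ S : Set ℤ[X], withNewton p a g b ⊆ S → S ⊆ aboveNewton p a g b → IsStratum p a g t S) ∧
  ∀ p a g r t : ℕ, p.Prime → 0 < a → r ≤ g → (1 ≤ r → t ≤ a) → (r < g → t + 2 ≤ a * (r + 1)) →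
    IsStratum p a g t (withRank p a g r)

end Pool.Agent.N205.NS
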