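import Mathlib
import Pool.Agent.N205.NS.Coeff
import Pool.Agent.N205.NS.Defs

/-! Newton strata of Weil polynomials: combinatorial form. -/

set_option autoImplicit false

namespace Pool.Agent.N205.NS

open Polynomial Pool.Agent.W521.Frob Pool.Agent.W521.Lower Pool.Agent.W521.Descent
  Pool.Agent.W521.Density Pool.Agent.W521.Count

/-- the valuations of the coefficients of the real polynomial -/
theorem dvd_real {p a g : ℕ} {m : ℕ → ℕ} {T : ℕ → Prop} (hD : IsData a g m T) {h : ℤ[X]}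
    (hdeg : h.natDegree = g)
    (hf : ∀ j, j ≤ g → (p : ℤ) ^ m j ∣ (weil (p ^ a) h).coeff (2 * g - j)) :
    ∀ j, j ≤ g → (p : ℤ) ^ m j ∣ h.coeff (g - j) := by
  intro j
  induction j using Nat.strong_induction_on with
  | _ j ih =>
    intro hj
    have h1 := weil_coeff_congr (p := p) (a := a) h j (by rw [hdeg]; exact hj) m (m j)
      (fun i hi h2i => by rw [hdeg]; exact ih _ (by omega) (by omega))
      (fun i hi h2i => hD.step j i hi h2i hj)
    rw [hdeg] at h1
    have h2 := hf j hj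
    have h3 := dvd_sub h2 h1
    rwa [sub_sub_cancel] at h3

/-- a polynomial with given valuations -/
theorem dvd_weil {p a g : ℕ} {m : ℕ → ℕ} {T : ℕ → Prop} (hD : IsData a g m T) {h : ℤ[X]}
    (hdeg : h.natDegree = g) (hh : ∀ j, j ≤ g → (p : ℤ) ^ m j ∣ h.coeff (g - j)) :
    (∀ j, j ≤ g → (p : ℤ) ^ m j ∣ (weil (p ^ a) h).coeff (2 * g - j)) ∧
    ∀ j, j ≤ g → T j → (¬ (p : ℤ) ^ (m j + 1) ∣ h.coeff (g - j)) →
      ¬ (p : ℤ) ^ (m j + 1) ∣ (weil (p ^ a) h).coeff (2 * g - j) := by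
  constructor
  · intro j hj
    have h1 := weil_coeff_congr (p := p) (a := a) h j (by rw [hdeg]; exact hj) m (m j)
      (fun i hi h2i => by rw [hdeg]; exact hh _ (by omega))
      (fun i hi h2i => hD.step j i hi h2i hj)
    rw [hdeg] at h1
    have h2 := dvd_add h1 (hh j hj)
    rwa [sub_add_cancel] at h2
  · intro j hj hT hn hcon
    have h1 := weil_coeff_congr (p := p) (a := a) h j (by rw [hdeg]; exact hj) m (m j + 1)
      (fun i hi h2i => by rw [hdeg]; exact hh _ (by omega))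
      (fun i hi h2i => hD.step_lt j i hT hi h2i hj)
    rw [hdeg] at h1
    apply hn
    have h3 := dvd_sub hcon h1
    rwa [sub_sub_cancel] at h3

/-- the Dickson polynomial -/
theorem dvd_dick {p a g : ℕ} {m : ℕ → ℕ} {T : ℕ → Prop} (hD : IsData a g m T) (j : ℕ)
    (hj1 : 1 ≤ j) (hj : j ≤ g) :
    (p : ℤ) ^ m j ∣ (dick (p ^ a) g).coeff (g - j) ∧
    (T j → (p : ℤ) ^ (m j + 1) ∣ (dick (p ^ a) g).coeff (g - j)) := by
  obtain ⟨h1, h2, -, -⟩ := dick_coeff_aux (p ^ a) g
  rcases Nat.even_or_odd' j with ⟨i, hi | hi⟩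
  · have h3 := h1 (g - j) i (by omega)
    have h4 : (((p ^ a : ℕ)) : ℤ) ^ i = (p : ℤ) ^ (a * i) := by push_cast; rw [← pow_mul]
    rw [h4] at h3
    constructor
    · have h5 := hD.step j i (by omega) (by omega) hj
      have h6 : j - 2 * i = 0 := by omega
      rw [h6, hD.zero, zero_add] at h5
      exact (pow_dvd_pow _ h5).trans h3
    · intro hT
      have h5 := hD.step_lt j i hT (by omega) (by omega) hj
      have h6 : j - 2 * i = 0 := by omega
      rw [h6, hD.zero, zero_add] at h5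
      exact (pow_dvd_pow _ h5).trans h3
  · have h3 := h2 (g - j) i (by omega)
    rw [h3]
    exact ⟨dvd_zero _, fun _ => dvd_zero _⟩

/-- the real polynomials of the elements of the closed stratum -/
theorem exists_point_closed {p a g : ℕ} (hp : p.Prime) {m : ℕ → ℕ} {T : ℕ → Prop}
    (hD : IsData a g m T) {f : ℤ[X]} (hf : f ∈ Closed p a g m) :
    ∃ y : Fin g → ℤ, f = weil (p ^ a) (mkPoly g (fun k => (p : ℤ) ^ m (g - (k : ℕ)) * y k)) ∧
      ∀ k : Fin g, |y k| ≤ ((bd (p ^ a) g k / p ^ m (g - (k : ℕ)) : ℕ) : ℤ) := by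
  have hq : p ^ a ≠ 0 := pow_ne_zero _ hp.ne_zero
  obtain ⟨x, rfl, hx⟩ := exists_point hq hf.1
  have h1 : ∀ j, j ≤ g → (p : ℤ) ^ m j ∣ (mkPoly g x).coeff (g - j) :=
    dvd_real hD (mkPoly_natDegree g x) hf.2
  have h2 : ∀ k : Fin g, (p : ℤ) ^ m (g - (k : ℕ)) ∣ x k := by
    intro k
    have h3 := h1 (g - (k : ℕ)) (Nat.sub_le _ _)
    have h4 : g - (g - (k : ℕ)) = k := by have := k.2; omega
    rw [h4, mkPoly_coeff] at h3
    exact h3
  choose y hy using h2
  refine ⟨y, ?_, ?_⟩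
  · congr 2
    funext k
    exact hy k
  · intro k
    have h5 := hx k
    rw [hy k, abs_mul] at h5
    have hpos : 0 < p ^ m (g - (k : ℕ)) := pow_pos hp.pos _
    have h6 : |((p : ℤ) ^ m (g - (k : ℕ)))| = ((p ^ m (g - (k : ℕ)) : ℕ) : ℤ) := by
      push_cast
      exact abs_of_nonneg (by positivity)
    rw [h6] at h5
    have h7 : |y k| = ((y k).natAbs : ℤ) := (Int.natCast_natAbs (y k)).symm
    rw [h7] at h5 ⊢
    norm_cast at h5 ⊢
    rw [Nat.le_div_iff_mul_le hpos, mul_comm]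
    exact h5

end Pool.Agent.N205.NS
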