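import Mathlib
import Pool.Agent.W484.TB.Bad
import Pool.Agent.N205.NS.Strata

/-! The exceptional points of the box of a Newton stratum. -/

set_option autoImplicit false

namespace Pool.Agent.N205.NS

open Polynomial Pool.Agent.W521.Frob Pool.Agent.W521.Descent Pool.Agent.W521.Density
  Pool.Agent.W521.Count Pool.Agent.W521.Turan Pool.Agent.W521.Sieve Pool.Agent.W521.Bad
  Pool.Agent.W521.Total Pool.Agent.W484.TB

theorem sqrt_pow_nat (p t : ℕ) : Real.sqrt ((p ^ t : ℕ) : ℝ) = Real.sqrt p ^ t := by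
  have h : ((p ^ t : ℕ) : ℝ) = (Real.sqrt p ^ t) ^ 2 := by
    rw [← pow_mul, mul_comm, pow_mul, Real.sq_sqrt (Nat.cast_nonneg p)]
    push_cast
    rfl
  rw [h, Real.sqrt_sq (by positivity)]

theorem pow_two_mul (p m : ℕ) : (Real.sqrt p ^ (2 * m)) = ((p ^ m : ℕ) : ℝ) := by
  rw [pow_mul, Real.sq_sqrt (Nat.cast_nonneg p)]
  push_cast
  rfl

section

variable {I : Type} (g : I → ℕ) (m : I → ℕ → ℕ)

/-- the exponent for the coefficient of index `s` -/
def ex (s : Σ i, Fin (g i)) : ℕ := m s.1 (g s.1 - (s.2 : ℕ))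

/-- the coefficients -/
def xx (p : ℕ) (y : (Σ i, Fin (g i)) → ℤ) : (Σ i, Fin (g i)) → ℤ := fun s => (p : ℤ) ^ ex g m s * y s

/-- half of the side length -/
noncomputable def hs (p a : ℕ) (s : Σ i, Fin (g i)) : ℕ := bd (p ^ a) (g s.1) s.2 / p ^ ex g m s

noncomputable def nlo (p a : ℕ) (s : Σ i, Fin (g i)) : ℤ := -(hs g m p a s : ℤ)

noncomputable def nlen (p a : ℕ) (s : Σ i, Fin (g i)) : ℕ := 2 * hs g m p a s + 1

/-- the true size of the side -/
noncomputable def side (p a : ℕ) (s : Σ i, Fin (g i)) : ℝ :=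
  Real.sqrt p ^ (a * (g s.1 - (s.2 : ℕ))) / Real.sqrt p ^ (2 * ex g m s)

/-- the room in the box -/
def Room (a t : ℕ) : Prop := ∀ i j, 1 ≤ j → j ≤ g i → t + 2 * m i j ≤ a * j

variable {g m}

theorem one_le_sqrt {p : ℕ} (hp : p.Prime) : 1 ≤ Real.sqrt p := by
  rw [Real.one_le_sqrt]
  exact_mod_cast hp.one_lt.le

theorem pow_le_side {p a t : ℕ} (hp : p.Prime) (hR : Room g m a t) (s : Σ i, Fin (g i)) :
    Real.sqrt p ^ t ≤ side g m p a s := by
  have h1 := one_le_sqrt hp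
  unfold side
  rw [le_div_iff₀ (by positivity), ← pow_add]
  apply pow_le_pow_right₀ h1
  have h2 := s.2.2
  exact hR s.1 (g s.1 - (s.2 : ℕ)) (by omega) (Nat.sub_le _ _)

theorem side_ge_one {p a t : ℕ} (hp : p.Prime) (hR : Room g m a t) (s : Σ i, Fin (g i)) :
    1 ≤ side g m p a s :=
  (one_le_pow₀ (one_le_sqrt hp)).trans (pow_le_side hp hR s)

theorem sqrt_le_nlen {p a t : ℕ} (hp : p.Prime) (hR : Room g m a t) (s : Σ i, Fin (g i)) :
    Real.sqrt ((p ^ t : ℕ) : ℝ) ≤ (nlen g m p a s : ℝ) := by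
  rw [sqrt_pow_nat]
  refine (pow_le_side hp hR s).trans ?_
  have h1 := one_le_sqrt hp
  have h2 : (4 : ℝ) ^ g s.1 * Real.sqrt ((p ^ a : ℕ) : ℝ) ^ (g s.1 - (s.2 : ℕ)) <
      (bd (p ^ a) (g s.1) s.2 : ℝ) + 1 := by
    unfold bd
    exact Nat.lt_floor_add_one _
  rw [sqrt_pow_nat, ← pow_mul] at h2
  have hpos : 0 < p ^ ex g m s := pow_pos hp.pos _
  have h3 := Nat.lt_mul_div_succ (bd (p ^ a) (g s.1) s.2) hpos
  have h4 : (bd (p ^ a) (g s.1) s.2 : ℝ) + 1 ≤
      ((p ^ ex g m s : ℕ) : ℝ) * ((hs g m p a s : ℝ) + 1) := by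
    have h5 : bd (p ^ a) (g s.1) s.2 + 1 ≤ p ^ ex g m s * (hs g m p a s + 1) := h3
    exact_mod_cast h5
  have h5 : (1 : ℝ) ≤ 4 ^ g s.1 := one_le_pow₀ (by norm_num)
  have h6 : Real.sqrt p ^ (a * (g s.1 - (s.2 : ℕ))) ≤
      4 ^ g s.1 * Real.sqrt p ^ (a * (g s.1 - (s.2 : ℕ))) :=
    le_mul_of_one_le_left (by positivity) h5
  unfold side nlen
  rw [div_le_iff₀ (by positivity), pow_two_mul]
  have h7 : ((p ^ ex g m s : ℕ) : ℝ) * ((hs g m p a s : ℝ) + 1) ≤
      ((2 * hs g m p a s + 1 : ℕ) : ℝ) * ((p ^ ex g m s : ℕ) : ℝ) := by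
    rw [mul_comm]
    apply mul_le_mul_of_nonneg_right _ (by positivity)
    push_cast
    have : (0 : ℝ) ≤ hs g m p a s := Nat.cast_nonneg _
    linarith
  linarith

theorem nlen_le {p a t : ℕ} (hp : p.Prime) (hR : Room g m a t) (s : Σ i, Fin (g i)) :
    (nlen g m p a s : ℝ) ≤ 3 * 4 ^ g s.1 * side g m p a s := by
  have h1 := side_ge_one hp hR s
  have h5 : (1 : ℝ) ≤ 4 ^ g s.1 := one_le_pow₀ (by norm_num)
  have h2 : (hs g m p a s : ℝ) ≤ 4 ^ g s.1 * side g m p a s := by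
    unfold hs side
    refine (Nat.cast_div_le).trans ?_
    rw [pow_two_mul, ← mul_div_assoc]
    apply div_le_div_of_nonneg_right _ (by positivity)
    refine (bd_le _ _ _).trans ?_
    rw [sqrt_pow_nat, ← pow_mul]
  have h3 : 1 ≤ 4 ^ g s.1 * side g m p a s := one_le_mul_of_one_le_of_one_le h5 h1
  unfold nlen
  push_cast
  linarith

end

open Classical in
/-- pull-back of an event -/
noncomputable def pull {σ : Type} (p : ℕ) (w : σ → ℕ) (l : ℕ) (Ω : Finset (σ → ZMod l)) :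
    Finset (σ → ZMod l) :=
  Ω.image (fun r s => ((p : ZMod l) ^ w s)⁻¹ * r s)

theorem card_pull {σ : Type} {p : ℕ} (w : σ → ℕ) {l : ℕ} (hl : l.Prime) (hlp : ¬ l ∣ p)
    (Ω : Finset (σ → ZMod l)) : (pull p w l Ω).card = Ω.card := by
  classical
  have : Fact l.Prime := ⟨hl⟩
  have hp0 : (p : ZMod l) ≠ 0 := by rwa [Ne, ZMod.natCast_eq_zero_iff]
  unfold pull
  apply Finset.card_image_of_injective
  intro r r' h
  funext s
  have h1 := congrFun h s
  exact mul_left_cancel₀ (inv_ne_zero (pow_ne_zero _ hp0)) h1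

theorem mem_of_pull {σ : Type} {p : ℕ} (w : σ → ℕ) {l : ℕ} (hl : l.Prime) (hlp : ¬ l ∣ p)
    (Ω : Finset (σ → ZMod l)) (y : σ → ℤ) (h : red l y ∈ pull p w l Ω) :
    red l (fun s => (p : ℤ) ^ w s * y s) ∈ Ω := by
  classical
  have : Fact l.Prime := ⟨hl⟩
  have hp0 : (p : ZMod l) ≠ 0 := by rwa [Ne, ZMod.natCast_eq_zero_iff]
  obtain ⟨r, hr, h1⟩ := Finset.mem_image.1 h
  have h2 : red l (fun s => (p : ℤ) ^ w s * y s) = r := by
    funext s
    have h3 := congrFun h1 s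
    simp only [red] at h3 ⊢
    push_cast
    rw [← h3, ← mul_assoc, mul_inv_cancel₀ (pow_ne_zero _ hp0), one_mul]
  rw [h2]
  exact hr

section

variable {I : Type} [Fintype I] [DecidableEq I] (g : I → ℕ)

open Classical in
theorem ss_count' (hg : ∀ i, 0 < g i) (i : I) : ∃ C : ℝ, 0 < C ∧ ∀ (p a t : ℕ) (m : I → ℕ → ℕ),
    p.Prime → 0 < t → Room g m a t →
    (((box (nlo g m p a) (nlen g m p a)).filter
      (fun y => ((p ^ a : ℕ) : ℤ) ∣ (polys g (xx g m p y) i).nextCoeff ^ 2)).card : ℝ) ≤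
      C * rate (p ^ t) * ∏ s, (nlen g m p a s : ℝ) := by
  have hl2 : 0 < Real.log 2 := Real.log_pos (by norm_num)
  refine ⟨2 * (16 ^ g i + 1) * (1 / Real.log 2), by positivity, ?_⟩
  intro p a t m hp ht hR
  have hgi := hg i
  set s₀ : Σ i, Fin (g i) := ⟨i, ⟨g i - 1, by omega⟩⟩ with hs₀
  have hgi1 : g i - (g i - 1) = 1 := by omega
  have hm1 : ex g m s₀ = m i 1 := by
    show m i (g i - (g i - 1)) = m i 1
    rw [hgi1]
  have hta : t + 2 * m i 1 ≤ a := by
    have := hR i 1 le_rfl hgi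
    omega
  have hnext : ∀ x : (Σ i, Fin (g i)) → ℤ, (polys g x i).nextCoeff = x s₀ := by
    intro x
    unfold polys
    rw [nextCoeff_of_natDegree_pos (by rw [mkPoly_natDegree]; exact hgi), mkPoly_natDegree]
    exact mkPoly_coeff (g i) (fun k => x ⟨i, k⟩) ⟨g i - 1, by omega⟩
  set q' : ℕ := p ^ (a - 2 * m i 1) with hq'
  have hq'0 : 0 < q' := pow_pos hp.pos _
  set A : Finset ℤ := (Finset.Ico (nlo g m p a s₀) (nlo g m p a s₀ + (nlen g m p a s₀ : ℤ))).filter
    (fun t : ℤ => (q' : ℤ) ∣ t ^ 2) with hA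
  have hAcard : A.card ≤ 2 * (16 ^ g i + 1) := by
    refine card_sq_dvd hq'0 (hs g m p a s₀) (16 ^ g i) ?_
    have h2 : (hs g m p a s₀ : ℝ) ≤ 4 ^ g i * side g m p a s₀ := by
      unfold hs side
      refine (Nat.cast_div_le).trans ?_
      rw [pow_two_mul, ← mul_div_assoc]
      apply div_le_div_of_nonneg_right _ (by positivity)
      refine (bd_le _ _ _).trans ?_
      rw [sqrt_pow_nat, ← pow_mul]
    have h3 : side g m p a s₀ ^ 2 = (q' : ℝ) := by
      have hP : 0 < Real.sqrt p := lt_of_lt_of_le one_pos (one_le_sqrt hp)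
      unfold side
      rw [hm1]
      have e1 : g s₀.1 - ((s₀.2 : ℕ)) = 1 := hgi1
      rw [e1, mul_one, div_eq_mul_inv, ← pow_sub₀ _ hP.ne' (by omega), ← pow_mul, mul_comm,
        pow_two_mul, hq']
    have h4 : ((hs g m p a s₀ : ℝ)) ^ 2 ≤ (4 ^ g i * side g m p a s₀) ^ 2 :=
      pow_le_pow_left₀ (Nat.cast_nonneg _) h2 2
    rw [mul_pow, h3, ← pow_mul, mul_comm (g i) 2, pow_mul] at h4
    norm_num at h4
    exact_mod_cast h4
  have h1 : (box (nlo g m p a) (nlen g m p a)).filter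
      (fun y => ((p ^ a : ℕ) : ℤ) ∣ (polys g (xx g m p y) i).nextCoeff ^ 2) ⊆
      Fintype.piFinset (fun s => if s = s₀ then A else
        Finset.Ico (nlo g m p a s) (nlo g m p a s + (nlen g m p a s : ℤ))) := by
    intro x hx
    obtain ⟨h2, h3⟩ := Finset.mem_filter.1 hx
    unfold box at h2
    rw [Fintype.mem_piFinset] at h2
    rw [Fintype.mem_piFinset]
    intro s
    split_ifs with h4
    · rw [hA, Finset.mem_filter, h4]
      refine ⟨h2 s₀, ?_⟩
      rw [hnext] at h3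
      unfold xx at h3
      rw [hm1, mul_pow, ← pow_mul] at h3
      have h5 : ((p ^ a : ℕ) : ℤ) = (p : ℤ) ^ (m i 1 * 2) * (q' : ℤ) := by
        rw [hq']
        push_cast
        rw [← pow_add]
        congr 1
        omega
      rw [h5] at h3
      exact Int.dvd_of_mul_dvd_mul_left (pow_ne_zero _ (by exact_mod_cast hp.ne_zero)) h3
    · exact h2 s
  have h2 := Finset.card_le_card h1
  rw [Fintype.card_piFinset] at h2
  have hpos : ∀ s, (0 : ℝ) < nlen g m p a s := by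
    intro s
    have : 0 < nlen g m p a s := by
      unfold nlen
      omega
    exact_mod_cast this
  have h3 : ((∏ s, (if s = s₀ then A else
      Finset.Ico (nlo g m p a s) (nlo g m p a s + (nlen g m p a s : ℤ))).card : ℕ) : ℝ) =
      ((A.card : ℝ) / nlen g m p a s₀) * ∏ s, (nlen g m p a s : ℝ) := by
    push_cast
    have h4 : ∀ s, (((if s = s₀ then A else
        Finset.Ico (nlo g m p a s) (nlo g m p a s + (nlen g m p a s : ℤ))).card : ℕ) : ℝ) =
        (if s = s₀ then (A.card : ℝ) / nlen g m p a s₀ else 1) * (nlen g m p a s : ℝ) := by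
      intro s
      split_ifs with h5
      · rw [h5]
        have := (hpos s₀).ne'
        field_simp
      · rw [Int.card_Ico, one_mul]
        congr 1
        omega
    rw [Finset.prod_congr rfl fun s _ => h4 s, Finset.prod_mul_distrib, Finset.prod_ite_eq']
    simp
  have h5 : (((box (nlo g m p a) (nlen g m p a)).filter
      (fun y => ((p ^ a : ℕ) : ℤ) ∣ (polys g (xx g m p y) i).nextCoeff ^ 2)).card : ℝ) ≤
      ((A.card : ℝ) / nlen g m p a s₀) * ∏ s, (nlen g m p a s : ℝ) := by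
    rw [← h3]
    exact_mod_cast h2
  refine h5.trans (mul_le_mul_of_nonneg_right ?_ (Finset.prod_nonneg fun s _ => (hpos s).le))
  have hA' : (A.card : ℝ) ≤ 2 * (16 ^ g i + 1) := by exact_mod_cast hAcard
  have hpt : 0 < ((p ^ t : ℕ) : ℝ) := by
    have : 0 < p ^ t := pow_pos hp.pos _
    exact_mod_cast this
  have hsq : 0 < Real.sqrt ((p ^ t : ℕ) : ℝ) := Real.sqrt_pos.2 hpt
  have h2t : 2 ≤ p ^ t := hp.two_le.trans (Nat.le_self_pow ht.ne' p)
  calc (A.card : ℝ) / nlen g m p a s₀ ≤ (2 * (16 ^ g i + 1)) / Real.sqrt ((p ^ t : ℕ) : ℝ) :=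
        div_le_div₀ (by positivity) hA' hsq (sqrt_le_nlen hp hR s₀)
    _ = (2 * (16 ^ g i + 1)) * (1 / Real.sqrt ((p ^ t : ℕ) : ℝ)) := by ring
    _ ≤ (2 * (16 ^ g i + 1)) * ((1 / Real.log 2) * rate (p ^ t)) :=
        mul_le_mul_of_nonneg_left (inv_sqrt_le h2t) (by positivity)
    _ = 2 * (16 ^ g i + 1) * (1 / Real.log 2) * rate (p ^ t) := by ring

open Classical in
theorem bad_count' (U : Set ℕ) (hU : Pool.Agent.W484.TB.Dense U) (hg : ∀ i, 0 < g i) :
    ∃ C : ℝ, 0 < C ∧ ∀ (p a t : ℕ) (m : I → ℕ → ℕ), p.Prime → 0 < t → Room g m a t →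
    (((box (nlo g m p a) (nlen g m p a)).filter
      (fun y => ¬ GoodU U g (p ^ a) (xx g m p y))).card : ℝ) ≤
      C * rate (p ^ t) * ∏ s, (nlen g m p a s : ℝ) := by
  obtain ⟨c₀, hc₀, hU⟩ := hU
  have hcardι : Fintype.card (Σ i, Fin (g i)) = ∑ i, g i := by
    rw [Fintype.card_sigma]
    simp
  set cF : ℝ := 1 / (∏ i, 4 ^ g i * (g i).factorial : ℕ) with hcF
  set cI : ℝ := 1 / (∏ i, 2 * g i : ℕ) with hcI
  have hcFpos : 0 < cF := by
    have : 0 < (∏ i, 4 ^ g i * (g i).factorial : ℕ) :=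
      Finset.prod_pos fun i _ => by positivity
    positivity
  have hcIpos : 0 < cI := by
    have : 0 < (∏ i, 2 * g i : ℕ) := Finset.prod_pos fun i _ => by have := hg i; positivity
    positivity
  set l₀ : ℕ := ∑ i, (4 * g i + 12) + 3 with hl₀
  have hl₀' : ∀ i l, l₀ ≤ l → 4 * g i + 12 ≤ l := by
    intro i l hl
    have := Finset.single_le_sum (f := fun i => 4 * g i + 12) (fun j _ => Nat.zero_le _)
      (Finset.mem_univ i)
    omega
  obtain ⟨CF, hCF, hF⟩ := sieve_bound_set U c₀ hc₀ hU (Fintype.card (Σ i, Fin (g i))) cF hcFpos l₀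
  obtain ⟨CI, hCI, hI⟩ := sieve_bound (Fintype.card (Σ i, Fin (g i))) cI hcIpos l₀
  choose CS hCS hS using ss_count' g hg
  refine ⟨(∑ i, (CF + CI + CS i)) + 1, ?_, ?_⟩
  · have : 0 ≤ ∑ i, (CF + CI + CS i) := Finset.sum_nonneg fun i _ => by
      have := hCS i
      positivity
    linarith
  intro p a t m hp ht hR
  have hpp : IsPrimePow (p ^ t) := hp.isPrimePow.pow ht.ne'
  have hprod : (0 : ℝ) ≤ ∏ s, (nlen g m p a s : ℝ) := Finset.prod_nonneg fun s _ => Nat.cast_nonneg _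
  have hlen : ∀ s, Real.sqrt ((p ^ t : ℕ) : ℝ) ≤ (nlen g m p a s : ℝ) := sqrt_le_nlen hp hR
  have hlp : ∀ l : ℕ, l.Prime → ¬ l ∣ p ^ t → ¬ l ∣ p := fun l hl h h' =>
    h (h'.trans (dvd_pow_self p ht.ne'))
  have hla : ∀ l : ℕ, l.Prime → ¬ l ∣ p → ¬ l ∣ p ^ a := fun l hl h h' =>
    h (hl.dvd_of_dvd_pow h')
  -- the three kinds of exceptional sets
  let ZF : I → Finset ((Σ i, Fin (g i)) → ℤ) := fun i => (box (nlo g m p a) (nlen g m p a)).filter
    (fun x => ∀ l : ℕ, l.Prime → l ∈ U → l₀ ≤ l → ¬ l ∣ p ^ t →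
      red l x ∉ pull p (ex g m) l (evF g (p ^ a) i l))
  let ZI : I → Finset ((Σ i, Fin (g i)) → ℤ) := fun i => (box (nlo g m p a) (nlen g m p a)).filter
    (fun x => ∀ l : ℕ, l.Prime → l₀ ≤ l → ¬ l ∣ p ^ t → red l x ∉ pull p (ex g m) l (evI g i l))
  let ZS : I → Finset ((Σ i, Fin (g i)) → ℤ) := fun i => (box (nlo g m p a) (nlen g m p a)).filter
    (fun y => ((p ^ a : ℕ) : ℤ) ∣ (polys g (xx g m p y) i).nextCoeff ^ 2)
  have hZF : ∀ i, ((ZF i).card : ℝ) ≤ CF * rate (p ^ t) * ∏ s, (nlen g m p a s : ℝ) := by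
    intro i
    refine hF (p ^ t) hpp rfl (fun l => pull p (ex g m) l (evF g (p ^ a) i l)) ?_ (nlo g m p a)
      (nlen g m p a) hlen
    intro l hl _ hl0 hlt
    have : Fact l.Prime := ⟨hl⟩
    have hlp' := hlp l hl hlt
    rw [card_pull _ hl hlp']
    have h1 := flipEvent_lower g hg (p ^ a) i l (fun j => hl₀' j l hl0) (hla l hl hlp')
    have h2 : evF g (p ^ a) i l = flipEvent g (p ^ a) i l := by
      unfold evF
      rw [dif_pos hl]
    rw [h2, hcF, hcardι, one_div, inv_mul_le_iff₀ (by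
      have : 0 < (∏ i, 4 ^ g i * (g i).factorial : ℕ) :=
        Finset.prod_pos fun i _ => by positivity
      exact_mod_cast this)]
    exact_mod_cast h1
  have hZI : ∀ i, ((ZI i).card : ℝ) ≤ CI * rate (p ^ t) * ∏ s, (nlen g m p a s : ℝ) := by
    intro i
    refine hI (p ^ t) hpp rfl (fun l => pull p (ex g m) l (evI g i l)) ?_ (nlo g m p a)
      (nlen g m p a) hlen
    intro l hl hl0 hlt
    have : Fact l.Prime := ⟨hl⟩
    have hlp' := hlp l hl hlt
    rw [card_pull _ hl hlp']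
    have h1 := irrEvent_lower g hg i l (by omega)
    have h2 : evI g i l = irrEvent g i l := by
      unfold evI
      rw [dif_pos hl]
    rw [h2, hcI, hcardι, one_div, inv_mul_le_iff₀ (by
      have : 0 < (∏ i, 2 * g i : ℕ) := Finset.prod_pos fun i _ => by have := hg i; positivity
      exact_mod_cast this)]
    exact_mod_cast h1
  have hsub : (box (nlo g m p a) (nlen g m p a)).filter
      (fun y => ¬ GoodU U g (p ^ a) (xx g m p y)) ⊆
      Finset.univ.biUnion (fun i => ZF i ∪ ZI i ∪ ZS i) := by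
    intro x hx
    obtain ⟨h1, h2⟩ := Finset.mem_filter.1 hx
    by_contra h3
    apply h2
    have h4 : ∀ i, x ∉ ZF i ∧ x ∉ ZI i ∧ x ∉ ZS i := by
      intro i
      have h5 : x ∉ ZF i ∪ ZI i ∪ ZS i := fun h6 =>
        h3 (Finset.mem_biUnion.2 ⟨i, Finset.mem_univ i, h6⟩)
      rw [Finset.mem_union, Finset.mem_union] at h5
      exact ⟨fun h => h5 (Or.inl (Or.inl h)), fun h => h5 (Or.inl (Or.inr h)),
        fun h => h5 (Or.inr h)⟩
    refine ⟨fun i => ?_, fun i => ?_, fun i => ?_⟩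
    · refine flip_of_not_set g U (l₀ := l₀) (by omega) hg (fun h => (h4 i).1
        (Finset.mem_filter.2 ⟨h1, ?_⟩))
      intro l hl hlU hl0 hlt hmem
      have hlp' := hlp l hl hlt
      exact h l hl hlU hl0 (hla l hl hlp') (mem_of_pull (ex g m) hl hlp' _ x hmem)
    · by_contra hcon
      apply (h4 i).2.1
      refine Finset.mem_filter.2 ⟨h1, ?_⟩
      intro l hl hl0 hlt hmem
      have hlp' := hlp l hl hlt
      have h5 := mem_of_pull (ex g m) hl hlp' _ x hmem
      apply hcon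
      refine irr_of_not g (l₀ := l₀) (q := p ^ t) (fun h => h l hl hl0 hlt h5)
    · exact fun h => (h4 i).2.2 (Finset.mem_filter.2 ⟨h1, h⟩)
  have hcard : (((box (nlo g m p a) (nlen g m p a)).filter
      (fun y => ¬ GoodU U g (p ^ a) (xx g m p y))).card : ℝ) ≤
      ∑ i, (((ZF i).card : ℝ) + (ZI i).card + (ZS i).card) := by
    have h1 := Finset.card_le_card hsub
    have h2 := h1.trans (Finset.card_biUnion_le)
    have h3 : ∑ i, (ZF i ∪ ZI i ∪ ZS i).card ≤ ∑ i, ((ZF i).card + (ZI i).card + (ZS i).card) := by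
      refine Finset.sum_le_sum fun i _ => ?_
      refine (Finset.card_union_le _ _).trans (Nat.add_le_add_right (Finset.card_union_le _ _) _)
    exact_mod_cast h2.trans h3
  calc (((box (nlo g m p a) (nlen g m p a)).filter
      (fun y => ¬ GoodU U g (p ^ a) (xx g m p y))).card : ℝ) ≤
      ∑ i, (((ZF i).card : ℝ) + (ZI i).card + (ZS i).card) := hcard
    _ ≤ ∑ i, ((CF + CI + CS i) * rate (p ^ t) * ∏ s, (nlen g m p a s : ℝ)) := by
        refine Finset.sum_le_sum fun i _ => ?_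
        have h1 := hZF i
        have h2 := hZI i
        have h3 : ((ZS i).card : ℝ) ≤ CS i * rate (p ^ t) * ∏ s, (nlen g m p a s : ℝ) :=
          hS i p a t m hp ht hR
        have h4 : (CF + CI + CS i) * rate (p ^ t) * ∏ s, (nlen g m p a s : ℝ) =
          CF * rate (p ^ t) * ∏ s, (nlen g m p a s : ℝ) +
          CI * rate (p ^ t) * ∏ s, (nlen g m p a s : ℝ) +
            CS i * rate (p ^ t) * ∏ s, (nlen g m p a s : ℝ) := by ring
        rw [h4]
        linarith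
    _ = (∑ i, (CF + CI + CS i)) * rate (p ^ t) * ∏ s, (nlen g m p a s : ℝ) := by
        rw [← Finset.sum_mul, ← Finset.sum_mul]
    _ ≤ ((∑ i, (CF + CI + CS i)) + 1) * rate (p ^ t) * ∏ s, (nlen g m p a s : ℝ) := by
        refine mul_le_mul_of_nonneg_right ?_ hprod
        refine mul_le_mul_of_nonneg_right ?_ (rate_nonneg _)
        linarith

end

end Pool.Agent.N205.NS
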