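import Mathlib
import Pool.Agent.N205.NS.Bad

/-! The size of a Newton stratum. -/

set_option autoImplicit false

namespace Pool.Agent.N205.NS

open Polynomial Pool.Agent.W521.Frob Pool.Agent.W521.Lower Pool.Agent.W521.Descent
  Pool.Agent.W521.Density Pool.Agent.W521.Count

/-- the true size of the side, for one polynomial -/
noncomputable def side1 (p a g : ℕ) (m : ℕ → ℕ) (k : Fin g) : ℝ :=
  Real.sqrt p ^ (a * (g - (k : ℕ))) / Real.sqrt p ^ (2 * m (g - (k : ℕ)))

theorem finite_closed {p : ℕ} (hp : p.Prime) (a g : ℕ) (m : ℕ → ℕ) : (Closed p a g m).Finite :=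
  (finite_weilPolys (pow_ne_zero _ hp.ne_zero)).subset fun _ h => h.1

theorem finite_open {p : ℕ} (hp : p.Prime) (a g : ℕ) (m : ℕ → ℕ) (T : ℕ → Prop) :
    (Open p a g m T).Finite :=
  (finite_closed hp a g m).subset fun _ h => h.1

theorem open_lower {p a g t : ℕ} (hp : p.Prime) (hg : 0 < g) {m : ℕ → ℕ} {T : ℕ → Prop}
    (hD : IsData a g m T) (hR : ∀ j, 1 ≤ j → j ≤ g → t + 2 * m j ≤ a * j)
    (ht : (2 : ℝ) ^ g ≤ Real.sqrt p ^ t) :
    0 < ∏ k : Fin g, side1 p a g m k ∧
    ∏ k : Fin g, side1 p a g m k ≤ 4 ^ g * 2 ^ (g ^ 2) * ((Open p a g m T).ncard : ℝ) := by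
  classical
  have hq0 : 0 < p ^ a := pow_pos hp.pos _
  have h1p := one_le_sqrt hp
  have hpos : 0 < Real.sqrt p := lt_of_lt_of_le one_pos h1p
  have hside : ∀ k : Fin g, 0 < side1 p a g m k := by
    intro k
    unfold side1
    positivity
  refine ⟨Finset.prod_pos fun k _ => hside k, ?_⟩
  set R : Fin g → ℝ := fun k => side1 p a g m k / 2 ^ g with hRdef
  have hR0 : ∀ k, 0 ≤ R k := fun k => by
    have := hside k
    simp only [hRdef]
    positivity
  have hR1 : ∀ k, 1 ≤ R k := by
    intro k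
    simp only [hRdef]
    rw [le_div_iff₀ (by positivity), one_mul]
    refine ht.trans ?_
    unfold side1
    rw [le_div_iff₀ (by positivity), ← pow_add]
    apply pow_le_pow_right₀ h1p
    have h2 := k.2
    exact hR (g - (k : ℕ)) (by omega) (Nat.sub_le _ _)
  let E : Fin g → Finset ℤ := fun k =>
    if T (g - (k : ℕ)) then ((Finset.Icc 1 ⌊R k⌋₊).filter (fun e => ¬ p ∣ e)).map Nat.castEmbedding
    else (Finset.range (⌊R k⌋₊ + 1)).map Nat.castEmbedding
  let F : (Fin g → ℤ) → ℤ[X] := fun e => weil (p ^ a)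
    (mkPoly g (fun k => (dick (p ^ a) g).coeff k + (p : ℤ) ^ m (g - (k : ℕ)) * e k))
  have hE : ∀ k, ∀ e ∈ E k, |(e : ℝ)| ≤ R k := by
    intro k e he
    by_cases hk : T (g - (k : ℕ))
    · simp only [E, if_pos hk, Finset.mem_map, Finset.mem_filter, Finset.mem_Icc] at he
      obtain ⟨n, ⟨⟨h1, h2⟩, h3⟩, rfl⟩ := he
      have h4 : (n : ℝ) ≤ R k := (Nat.le_floor_iff (hR0 k)).1 h2
      simpa using h4
    · simp only [E, if_neg hk, Finset.mem_map, Finset.mem_range] at he
      obtain ⟨n, h2, rfl⟩ := he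
      have h4 : (n : ℝ) ≤ R k := (Nat.le_floor_iff (hR0 k)).1 (by omega)
      simpa using h4
  have hET : ∀ k : Fin g, T (g - (k : ℕ)) → ∀ e ∈ E k, ¬ (p : ℤ) ∣ e := by
    intro k hk e he
    simp only [E, if_pos hk, Finset.mem_map, Finset.mem_filter, Finset.mem_Icc] at he
    obtain ⟨n, ⟨⟨h1, h2⟩, h3⟩, rfl⟩ := he
    intro h10
    rw [Nat.castEmbedding_apply] at h10
    exact h3 (by exact_mod_cast h10)
  have hpz : (p : ℤ) ≠ 0 := by exact_mod_cast hp.ne_zero
  have hinj : Function.Injective F := by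
    intro e e' hee
    have h1 := weil_injective hq0.ne' (mkPoly_natDegree g _) (mkPoly_natDegree g _) hee
    have h2 := mkPoly_injective g h1
    funext k
    have h3 := congrFun h2 k
    simp only [add_right_inj] at h3
    exact mul_left_cancel₀ (pow_ne_zero _ hpz) h3
  have hmem : ∀ e ∈ Fintype.piFinset E, F e ∈ Open p a g m T := by
    intro e he
    rw [Fintype.mem_piFinset] at he
    set h : ℤ[X] := mkPoly g (fun k => (dick (p ^ a) g).coeff k + (p : ℤ) ^ m (g - (k : ℕ)) * e k)
      with hh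
    have hdeg : h.natDegree = g := mkPoly_natDegree g _
    have hco : ∀ j, 1 ≤ j → j ≤ g → ∃ k : Fin g, (k : ℕ) = g - j ∧
        h.coeff (g - j) = (dick (p ^ a) g).coeff (g - j) + (p : ℤ) ^ m j * e k ∧
        g - (k : ℕ) = j := by
      intro j hj1 hj
      refine ⟨⟨g - j, by omega⟩, rfl, ?_, by simp only; omega⟩
      have h1 := mkPoly_coeff g (fun k : Fin g => (dick (p ^ a) g).coeff k +
        (p : ℤ) ^ m (g - (k : ℕ)) * e k) ⟨g - j, by omega⟩
      have h2 : g - (g - j) = j := by omega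
      simp only [h2] at h1
      exact h1
    have hval : ∀ j, j ≤ g → (p : ℤ) ^ m j ∣ h.coeff (g - j) := by
      intro j hj
      rcases Nat.eq_zero_or_pos j with h0 | h0
      · rw [h0, hD.zero, pow_zero]
        exact one_dvd _
      · obtain ⟨k, -, hk, -⟩ := hco j h0 hj
        rw [hk]
        exact dvd_add (dvd_dick hD j h0 hj).1 (Dvd.intro _ rfl)
    obtain ⟨hv1, hv2⟩ := dvd_weil hD hdeg hval
    refine ⟨⟨?_, hv1⟩, ?_⟩
    · refine mem_weilPolys hq0 (mkPoly_monic g _) (mkPoly_natDegree g _) ?_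
      refine real_roots hq0 hg _ fun k => ?_
      have h1 := hE k (e k) (he k)
      rw [add_sub_cancel_left]
      push_cast
      rw [abs_mul, abs_of_nonneg (by positivity : (0 : ℝ) ≤ (p : ℝ) ^ m (g - (k : ℕ)))]
      have h2 : ((p : ℝ) ^ m (g - (k : ℕ))) = Real.sqrt p ^ (2 * m (g - (k : ℕ))) := by
        rw [pow_two_mul]
        push_cast
        rfl
      have h3 : Real.sqrt (((p : ℝ)) ^ a) = Real.sqrt p ^ a := by
        have := sqrt_pow_nat p a
        push_cast at this
        exact this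
      rw [h2, h3, ← pow_mul]
      calc Real.sqrt p ^ (2 * m (g - (k : ℕ))) * |(e k : ℝ)| ≤
          Real.sqrt p ^ (2 * m (g - (k : ℕ))) * R k :=
            mul_le_mul_of_nonneg_left h1 (by positivity)
        _ = Real.sqrt p ^ (a * (g - (k : ℕ))) / 2 ^ g := by
            simp only [hRdef]
            unfold side1
            have h5 : Real.sqrt p ^ (2 * m (g - (k : ℕ))) ≠ 0 := by positivity
            field_simp
    · intro j hj1 hj hT
      refine hv2 j hj hT ?_
      obtain ⟨k, -, hk, hk2⟩ := hco j hj1 hj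
      rw [hk]
      intro hcon
      have h1 := (dvd_dick (p := p) hD j hj1 hj).2 hT
      have h2 : (p : ℤ) ^ (m j + 1) ∣ (p : ℤ) ^ m j * e k := by
        have := dvd_sub hcon h1
        rwa [add_sub_cancel_left] at this
      rw [pow_succ] at h2
      have h3 : (p : ℤ) ∣ e k := Int.dvd_of_mul_dvd_mul_left (pow_ne_zero _ hpz) h2
      exact hET k (by rw [hk2]; exact hT) (e k) (he k) h3
  have hcard : (Fintype.piFinset E).card ≤ (Open p a g m T).ncard := by
    rw [← Set.ncard_coe_finset, ← Set.ncard_image_of_injective _ hinj]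
    refine Set.ncard_le_ncard ?_ (finite_open hp a g m T)
    rintro _ ⟨e, he, rfl⟩
    exact hmem e (by simpa using he)
  have hEcard : ∀ k : Fin g, R k ≤ 4 * ((E k).card : ℝ) := by
    intro k
    have h3 := Nat.lt_floor_add_one (R k)
    by_cases hk : T (g - (k : ℕ))
    · simp only [E, if_pos hk, Finset.card_map]
      have h1 := card_prime_to p ⌊R k⌋₊ hp
      have h4 : (1 : ℝ) ≤ (⌊R k⌋₊ : ℝ) := by
        have h5 : 1 ≤ ⌊R k⌋₊ := (Nat.le_floor_iff (hR0 k)).2 (by simpa using hR1 k)
        exact_mod_cast h5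
      have h5 : (⌊R k⌋₊ : ℝ) ≤
          2 * (((Finset.Icc 1 ⌊R k⌋₊).filter (fun e => ¬ p ∣ e)).card : ℝ) := by
        exact_mod_cast h1
      linarith
    · simp only [E, if_neg hk, Finset.card_map, Finset.card_range]
      push_cast
      have : (0 : ℝ) ≤ (⌊R k⌋₊ : ℝ) := Nat.cast_nonneg _
      linarith
  have hprod : ∏ k : Fin g, R k ≤ 4 ^ g * ((Open p a g m T).ncard : ℝ) := by
    calc ∏ k : Fin g, R k ≤ ∏ k : Fin g, (4 * ((E k).card : ℝ)) :=
          Finset.prod_le_prod (fun k _ => hR0 k) fun k _ => hEcard k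
      _ = 4 ^ g * ((Fintype.piFinset E).card : ℝ) := by
          rw [Finset.prod_mul_distrib, Fintype.card_piFinset, Finset.prod_const, Finset.card_univ,
            Fintype.card_fin]
          push_cast
          rfl
      _ ≤ 4 ^ g * ((Open p a g m T).ncard : ℝ) := by
          refine mul_le_mul_of_nonneg_left ?_ (by positivity)
          exact_mod_cast hcard
  have hprod2 : ∏ k : Fin g, R k = (∏ k : Fin g, side1 p a g m k) / 2 ^ (g ^ 2) := by
    simp only [hRdef]
    rw [Finset.prod_div_distrib]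
    congr 1
    rw [Finset.prod_const, Finset.card_univ, Fintype.card_fin, ← pow_mul, ← sq]
  rw [hprod2, div_le_iff₀ (by positivity)] at hprod
  linarith

end Pool.Agent.N205.NS
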