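import Mathlib
import Pool.Agent.W484.AA.Rel

/-! Newton width: relations between the roots of Weil polynomials with flips and algebraic numbers
of smaller Newton width. -/

set_option autoImplicit false
set_option linter.unusedSectionVars false

namespace Pool.Agent.N205.NS

open Polynomial Pool.Agent.H925R2 Pool.Agent.H485R3 Pool.Agent.W484.BB Pool.Agent.W521.Frob
  Pool.Agent.W521.Criterion Pool.Agent.W484.AA

theorem norm_lt_imp (p : ℕ) [Fact p.Prime] (v : ℕ) (n : ℤ)
    (h : ‖(n : PadicAlgCl p)‖ < ((p : ℝ)⁻¹) ^ v) : (p : ℤ) ^ (v + 1) ∣ n := by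
  have h1 : (n : PadicAlgCl p) = (algebraMap ℚ_[p] (PadicAlgCl p)) (n : ℚ_[p]) := by
    simp
  rw [h1, PadicAlgCl.norm_extends] at h
  have h2 : ((p : ℝ)⁻¹) ^ v = (p : ℝ) ^ (-(v : ℤ)) := by
    rw [zpow_neg, zpow_natCast, inv_pow]
  rw [h2, Padic.norm_lt_pow_iff_norm_le_pow_sub_one] at h
  have h3 : (-(v : ℤ) - 1) = -((v + 1 : ℕ) : ℤ) := by push_cast; ring
  rw [h3, Padic.norm_int_le_pow_iff_dvd] at h
  exact_mod_cast h

theorem sum_norm_lt (p : ℕ) [Fact p.Prime] {B : ℝ} (hB : 0 < B) (M : Multiset (PadicAlgCl p))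
    (h : ∀ x ∈ M, ‖x‖ < B) : ‖M.sum‖ < B := by
  induction M using Multiset.induction_on with
  | empty => simpa using hB
  | cons x M ih =>
    rw [Multiset.sum_cons]
    exact (IsUltrametricDist.norm_add_le_max _ _).trans_lt
      (max_lt (h x (Multiset.mem_cons_self x M))
        (ih fun y hy => h y (Multiset.mem_cons_of_mem hy)))

/-- The sum of the absolute values of the deviations. -/
theorem sum_dev_ge' (p : ℕ) [Fact p.Prime] (a g j v : ℕ) (f : ℤ[X]) (M : Multiset (PadicAlgCl p))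
    (hM : f.map (algebraMap ℤ (PadicAlgCl p)) = (M.map (fun a => X - C a)).prod)
    (hcard : M.card = 2 * g) (hj : j ≤ 2 * g)
    (hc : ¬ (p : ℤ) ^ (v + 1) ∣ f.coeff (2 * g - j)) (h0 : f.coeff 0 = ((p ^ a : ℕ) : ℤ) ^ g) :
    2 * ((j : ℝ) * Real.log ((p : ℝ) ^ a) - 2 * v * Real.log p) ≤
      (M.map (fun y => |dev p ((p : ℚ) ^ a) y|)).sum := by
  classical
  have hpp : (0 : ℝ) < p := by exact_mod_cast (Fact.out : p.Prime).pos
  have hp0 : (0 : ℝ) < (p : ℝ) ^ a := pow_pos hpp _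
  -- the product of the roots
  have hprod : ‖M.prod‖ = (((p : ℝ) ^ a)⁻¹) ^ g := by
    have h2 := congrArg (fun g => g.coeff 0) hM
    simp only [coeff_map, eq_intCast] at h2
    have h2' : M.esymm M.card = M.prod := by
      unfold Multiset.esymm
      rw [Multiset.powersetCard_self, Multiset.map_singleton, Multiset.sum_singleton]
    rw [Multiset.prod_X_sub_C_coeff M (Nat.zero_le _), Nat.sub_zero, h2', h0] at h2
    have h3 := congrArg norm h2
    rw [norm_mul, norm_pow, norm_neg, norm_one, one_pow, one_mul] at h3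
    rw [← h3]
    have h4 := norm_pow_cast p a
    push_cast at h4 ⊢
    rw [norm_pow, h4]
  have hM0 : ∀ y ∈ M, y ≠ 0 := by
    rintro y hy rfl
    rw [Multiset.prod_eq_zero hy, norm_zero] at hprod
    have : 0 < (((p : ℝ) ^ a)⁻¹) ^ g := by positivity
    linarith
  have hsum : ∀ N : Multiset (PadicAlgCl p), (∀ y ∈ N, y ≠ 0) →
      (N.map (fun y => dev p ((p : ℚ) ^ a) y)).sum =
        2 * Real.log ‖N.prod‖ + N.card * Real.log ((p : ℝ) ^ a) := by
    intro N
    induction N using Multiset.induction_on with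
    | empty => intro _; simp
    | cons y N ih =>
      intro hN
      have hy := hN y (Multiset.mem_cons_self y N)
      have hN' : ∀ z ∈ N, z ≠ 0 := fun z hz => hN z (Multiset.mem_cons_of_mem hz)
      have hNp : N.prod ≠ 0 := Multiset.prod_ne_zero fun h => hN' 0 h rfl
      rw [Multiset.map_cons, Multiset.sum_cons, ih hN', Multiset.prod_cons, norm_mul,
        Real.log_mul (norm_ne_zero_iff.2 hy) (norm_ne_zero_iff.2 hNp), Multiset.card_cons]
      unfold dev
      rw [norm_pow_cast, Real.log_inv]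
      push_cast
      ring
  have hsum0 : (M.map (fun y => dev p ((p : ℚ) ^ a) y)).sum = 0 := by
    rw [hsum M hM0, hprod, Real.log_pow, Real.log_inv, hcard]
    push_cast
    ring
  -- a set of roots
  obtain ⟨t, ht1, ht2, ht3⟩ : ∃ t : Multiset (PadicAlgCl p), t ≤ M ∧ t.card = j ∧
      ((p : ℝ)⁻¹) ^ v ≤ ‖t.prod‖ := by
    by_contra hno
    push Not at hno
    apply hc
    apply norm_lt_imp p
    have h1 : ((f.coeff (2 * g - j) : ℤ) : PadicAlgCl p) = (-1) ^ j * M.esymm j := by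
      have h2 := congrArg (fun g' => g'.coeff (M.card - j)) hM
      simp only [coeff_map, eq_intCast] at h2
      rw [hcard] at h2
      rw [h2, ← hcard, Multiset.prod_X_sub_C_coeff M (Nat.sub_le _ _)]
      congr 2 <;> omega
    rw [h1, norm_mul, norm_pow, norm_neg, norm_one, one_pow, one_mul]
    unfold Multiset.esymm
    apply sum_norm_lt p (by positivity)
    intro x hx
    obtain ⟨t, ht, rfl⟩ := Multiset.mem_map.1 hx
    obtain ⟨ht1, ht2⟩ := Multiset.mem_powersetCard.1 ht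
    exact hno t ht1 ht2
  obtain ⟨u, rfl⟩ := Multiset.le_iff_exists_add.1 ht1
  have htpos : 0 < ((p : ℝ)⁻¹) ^ v := by positivity
  have h5 : (t.map (fun y => dev p ((p : ℚ) ^ a) y)).sum =
      2 * Real.log ‖t.prod‖ + j * Real.log ((p : ℝ) ^ a) := by
    rw [hsum t fun y hy => hM0 y (Multiset.mem_add.2 (Or.inl hy)), ht2]
  have h6 : - (v : ℝ) * Real.log p ≤ Real.log ‖t.prod‖ := by
    have h7 := Real.log_le_log htpos ht3
    rw [Real.log_pow, Real.log_inv] at h7
    linarith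
  rw [Multiset.map_add, Multiset.sum_add] at hsum0
  rw [Multiset.map_add, Multiset.sum_add]
  have key : ∀ N : Multiset (PadicAlgCl p), |(N.map (fun y => dev p ((p : ℚ) ^ a) y)).sum| ≤
      (N.map (fun y => |dev p ((p : ℚ) ^ a) y|)).sum := by
    intro N
    induction N using Multiset.induction_on with
    | empty => simp
    | cons y N ih =>
      rw [Multiset.map_cons, Multiset.sum_cons, Multiset.map_cons, Multiset.sum_cons]
      exact (abs_add_le _ _).trans (add_le_add_right ih _)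
  have h8 := (le_abs_self _).trans (key t)
  have h9 := (neg_le_abs _).trans (key u)
  nlinarith

/-- The width of a Weil polynomial in terms of a coefficient. -/
theorem width_ge (p : ℕ) [Fact p.Prime] (a g j v : ℕ) (ha : 0 < a) (f : ℤ[X]) (hm : f.Monic)
    (hdeg : f.natDegree = 2 * g) (hj : j ≤ 2 * g)
    (hc : ¬ (p : ℤ) ^ (v + 1) ∣ f.coeff (2 * g - j)) (h0 : f.coeff 0 = ((p ^ a : ℕ) : ℤ) ^ g) :
    2 * ((j : ℝ) - 2 * v / a) ≤ newtonWidth p ((p ^ a : ℕ) : ℝ) 1 f := by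
  have hp1 : (1 : ℝ) < p := by exact_mod_cast (Fact.out : p.Prime).one_lt
  have hlogp : 0 < Real.log p := Real.log_pos hp1
  have hlog : 0 < Real.log ((p : ℝ) ^ a) := by
    rw [Real.log_pow]
    positivity
  set M := (f.map (Int.castRingHom (PadicAlgCl p))).roots with hMdef
  have hsplit : (f.map (Int.castRingHom (PadicAlgCl p))).Splits := IsAlgClosed.splits _
  have hmm : (f.map (Int.castRingHom (PadicAlgCl p))).Monic := hm.map _
  have hM : f.map (algebraMap ℤ (PadicAlgCl p)) = (M.map (fun a => X - C a)).prod := by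
    rw [hMdef]
    have := hsplit.eq_prod_roots
    rw [hmm.leadingCoeff, C_1, one_mul] at this
    exact this
  have hcard : M.card = 2 * g := by
    rw [hMdef, ← hsplit.natDegree_eq_card_roots, hm.natDegree_map, hdeg]
  have h1 := sum_dev_ge' p a g j v f M hM hcard hj hc h0
  have h2 : (M.map (fun y => |dev p ((p : ℚ) ^ a) y|)).sum =
      Real.log ((p : ℝ) ^ a) * newtonWidth p ((p ^ a : ℕ) : ℝ) 1 f := by
    unfold newtonWidth
    rw [← Multiset.sum_map_mul_left]
    congr 1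
    refine Multiset.map_congr rfl fun y _ => ?_
    have h3 := abs_dev_eq_width p a ha 1 1 one_pos y
    simp only [mul_one, pow_one, Nat.cast_one, one_mul] at h3
    rw [h3]
    push_cast
    rfl
  rw [h2] at h1
  have h4 : 2 * ((j : ℝ) * Real.log ((p : ℝ) ^ a) - 2 * v * Real.log p) =
      Real.log ((p : ℝ) ^ a) * (2 * ((j : ℝ) - 2 * v / a)) := by
    rw [Real.log_pow]
    have : (a : ℝ) ≠ 0 := by exact_mod_cast ha.ne'
    field_simp
  rw [h4] at h1
  exact le_of_mul_le_mul_left h1 hlog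

section

variable {I : Type*} {q : ℕ} {h : I → ℤ[X]} (hq : q ≠ 0) (hm : ∀ i, (h i).Monic)
  {L : Type} [Field L] [NumberField L] [IsGalois ℚ L] (j : L →+* ℂ)
  (hL : ∀ i, ∀ z : ℂ, aeval z (weil q (h i)) = 0 → ∃ x : L, j x = z)
  (p : ℕ) [Fact p.Prime] (a : ℕ) (ha : 0 < a) (hqp : q = p ^ a) (e : L →ₐ[ℚ] PadicAlgCl p)

include hq hm hL hqp ha in
/-- **The mean of the absolute values of the deviations.** -/
theorem mean_eq (i : I) (hirr : Irreducible ((h i).map (Int.castRingHom ℚ))) (g : ℕ)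
    (hdeg : (weil q (h i)).natDegree = 2 * g)
    (x : L) (hx : aeval x (weil q (h i)) = 0) :
    (Fintype.card (L ≃ₐ[ℚ] L) : ℝ) *
      (Real.log ((p : ℝ) ^ a) * newtonWidth p (q : ℝ) 1 (weil q (h i))) =
      2 * g * ∑ σ : L ≃ₐ[ℚ] L, |dv p a e (σ x)| := by
  classical
  have hmw : (weil q (h i)).Monic := weil_monic q (hm i)
  have hsplit : ((weil q (h i)).map (algebraMap ℤ L)).Splits := by
    refine Splits.of_splits_map j (IsAlgClosed.splits _) ?_
    intro z hz
    have h1 := (mem_roots'.1 hz).2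
    have e1 : ((weil q (h i)).map (algebraMap ℤ L)).map j = (weil q (h i)).map (algebraMap ℤ ℂ) := by
      rw [Polynomial.map_map]
      congr 1
      exact RingHom.ext_int _ _
    rw [e1, IsRoot.def, eval_map] at h1
    exact hL i z h1
  set M := ((weil q (h i)).map (algebraMap ℤ L)).roots with hMdef
  have hM : (weil q (h i)).map (algebraMap ℤ L) = (M.map (fun a => X - C a)).prod := by
    rw [hMdef]
    have := hsplit.eq_prod_roots
    rw [(hmw.map (algebraMap ℤ L)).leadingCoeff, C_1, one_mul] at this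
    exact this
  have hMcard : M.card = 2 * g := by
    rw [hMdef, ← hsplit.natDegree_eq_card_roots, hmw.natDegree_map, hdeg]
  have hMroot : ∀ y ∈ M, aeval y (weil q (h i)) = 0 := by
    intro y hy
    have h1 := (mem_roots'.1 hy).2
    rw [IsRoot.def, eval_map] at h1
    exact h1
  -- the sums over the group do not depend on the root
  have hconst : ∀ y ∈ M, ∑ σ : L ≃ₐ[ℚ] L, |dv p a e (σ y)| = ∑ σ : L ≃ₐ[ℚ] L, |dv p a e (σ x)| := by
    intro y hy
    have hy0 : y ≠ 0 := root_ne_zero hq (hm i) (hMroot y hy)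
    obtain ⟨τ, hτ⟩ := exists_tau hq hm L j hL i hirr x y hx (hMroot y hy)
    have h1 : ∀ σ : L ≃ₐ[ℚ] L, |dv p a e (σ y)| = |dv p a e ((σ * τ) x)| := by
      intro σ
      rw [AlgEquiv.mul_apply]
      rcases hτ with h' | h'
      · rw [h']
      · rw [h', map_div₀, map_natCast, dv_inv p a hqp e (σ y) (by
          rw [Ne, map_eq_zero]; exact hy0), abs_neg]
    rw [Finset.sum_congr rfl fun σ _ => h1 σ]
    exact Fintype.sum_equiv (Equiv.mulRight τ) _ _ fun σ => rfl
  have h1 : (M.map (fun y => ∑ σ : L ≃ₐ[ℚ] L, |dv p a e (σ y)|)).sum =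
      2 * g * ∑ σ : L ≃ₐ[ℚ] L, |dv p a e (σ x)| := by
    rw [Multiset.map_congr rfl hconst, Multiset.map_const', Multiset.sum_replicate, hMcard,
      nsmul_eq_mul]
    push_cast
    ring
  rw [← h1, sum_map_exchange]
  have h2 : ∀ σ : L ≃ₐ[ℚ] L, (M.map (fun y => |dv p a e (σ y)|)).sum =
      Real.log ((p : ℝ) ^ a) * newtonWidth p (q : ℝ) 1 (weil q (h i)) := by
    intro σ
    have h4 : (weil q (h i)).map (Int.castRingHom (PadicAlgCl p)) =
        ((M.map (fun y => e (σ y))).map (fun a => X - C a)).prod := by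
      have h4 := congrArg (fun f => f.map ((e : L →+* PadicAlgCl p).comp (σ : L →+* L))) hM
      simp only [Polynomial.map_map, Polynomial.map_multiset_prod, Multiset.map_map] at h4
      rw [RingHom.ext_int (Int.castRingHom (PadicAlgCl p))
        (((e : L →+* PadicAlgCl p).comp (σ : L →+* L)).comp (algebraMap ℤ L)), h4,
        Multiset.map_map]
      congr 1
      refine Multiset.map_congr rfl fun y _ => ?_
      simp
    unfold newtonWidth
    rw [h4, roots_multiset_prod_X_sub_C, Multiset.map_map, ← Multiset.sum_map_mul_left]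
    congr 1
    refine Multiset.map_congr rfl fun y _ => ?_
    have h5 := abs_dev_eq_width p a ha 1 1 one_pos (e (σ y))
    simp only [mul_one, pow_one, Nat.cast_one, one_mul] at h5
    simp only [Function.comp_apply, Nat.cast_one]
    unfold dv
    rw [h5, hqp]
    push_cast
    rfl
  rw [Finset.sum_congr rfl fun σ _ => h2 σ, Finset.sum_const, Finset.card_univ, nsmul_eq_mul]

end

/-- **No relations.** -/
theorem no_relation' {I : Type} [Finite I] {q : ℕ} {h : I → ℤ[X]} (p : ℕ) [Fact p.Prime] (a : ℕ)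
    (ha : 0 < a) (hqp : q = p ^ a)
    (hm : ∀ i, (h i).Monic) (hirr : ∀ i, Irreducible ((h i).map (Int.castRingHom ℚ)))
    (hpat : ∀ i, ∃ l : ℕ, l.Prime ∧ l ≠ 2 ∧ ¬ l ∣ q ∧ FlipPattern q h i l)
    (g : I → ℕ) (hdeg : ∀ i, (weil q (h i)).natDegree = 2 * g i)
    (s : ℕ) (hs : 0 < s) (w : ℕ) (χ : ℤ[X]) (hχ : χ.Monic)
    (hroots : ∀ z : ℂ, aeval z χ = 0 → ‖z‖ ^ 2 = ((q : ℝ) ^ s) ^ w)
    (hwidth : ∀ i, newtonWidth p ((q : ℝ) ^ s) w χ < newtonWidth p (q : ℝ) 1 (weil q (h i)))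
    (ρ : ℂ) (hρ : aeval ρ χ = 0)
    {n : ℕ} (hn : 0 < n) (c : ℕ) (hnc : n + w = 2 * c) (N : ℕ) (hN : 0 < N) (z : Fin n → ℂ)
    (hz : ∀ k, ∃ i, aeval (z k) (weil q (h i)) = 0)
    (hrel : ((∏ k, z k) ^ s * ρ) ^ N = (((q : ℂ) ^ s) ^ c) ^ N)
    (hno : ∀ k l, k ≠ l → z k * z l ≠ q) : False := by
  classical
  cases nonempty_fintype I
  have hp0 : 0 < p := (Fact.out : p.Prime).pos
  have hq : q ≠ 0 := by rw [hqp]; exact pow_ne_zero _ hp0.ne'
  have hp1 : (1 : ℝ) < (p : ℝ) ^ a :=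
    one_lt_pow₀ (by exact_mod_cast (Fact.out : p.Prime).one_lt) ha.ne'
  have hl : 0 < Real.log ((p : ℝ) ^ a) := Real.log_pos hp1
  -- the field
  let T : Finset ℂ := (Finset.univ.biUnion fun i =>
    ((weil q (h i)).map (algebraMap ℤ ℂ)).roots.toFinset) ∪ {ρ}
  have hTint : ∀ y : T, IsIntegral ℤ (y : ℂ) := by
    rintro ⟨y, hy⟩
    rcases Finset.mem_union.1 hy with h1 | h1
    · obtain ⟨i, -, h2⟩ := Finset.mem_biUnion.1 h1
      have h3 := (mem_roots'.1 (Multiset.mem_toFinset.1 h2)).2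
      rw [IsRoot.def, eval_map] at h3
      exact ⟨weil q (h i), weil_monic q (hm i), h3⟩
    · rw [Finset.mem_singleton] at h1
      subst h1
      exact ⟨χ, hχ, hρ⟩
  obtain ⟨L, hL1, hL2, j, hj⟩ := exists_galois_of (fun y : T => (y : ℂ)) hTint
  have hL : ∀ i, ∀ z : ℂ, aeval z (weil q (h i)) = 0 → ∃ x : L, j x = z := by
    intro i z hz
    refine hj ⟨z, Finset.mem_union.2 (Or.inl (Finset.mem_biUnion.2 ⟨i, Finset.mem_univ _, ?_⟩))⟩
    rw [Multiset.mem_toFinset, mem_roots ((weil_monic q (hm i)).map _).ne_zero, IsRoot.def, eval_map]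
    exact hz
  obtain ⟨r0, hr0⟩ : ∃ y : L, j y = ρ := hj ⟨ρ, Finset.mem_union.2 (Or.inr (by simp))⟩
  have hfl : ∀ i, ∀ α : L, aeval α (weil q (h i)) = 0 → Flippable q h α := by
    intro i α hα
    obtain ⟨l, hl, hl2, hlq, hp⟩ := hpat i
    exact all_flippable hq hm L j hL i (hirr i) hl hl2 hlq hp α hα
  have hdown : ∀ (f : ℤ[X]) (x : L), aeval (j x) f = 0 → aeval x f = 0 := by
    intro f x hx
    apply j.injective
    have h2 := Polynomial.hom_eval₂ f (algebraMap ℤ L) j x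
    rw [RingHom.ext_int (j.comp (algebraMap ℤ L)) (algebraMap ℤ ℂ)] at h2
    rw [map_zero]
    exact h2.trans hx
  choose i hi using hz
  choose x hx using fun k => hL (i k) (z k) (hi k)
  have hxr : ∀ k, aeval (x k) (weil q (h (i k))) = 0 := fun k => hdown _ _ (by rw [hx]; exact hi k)
  have hx0 : ∀ k, x k ≠ 0 := fun k => root_ne_zero hq (hm (i k)) (hxr k)
  have hqL : (q : L) ≠ 0 := by exact_mod_cast hq
  have hqC : (q : ℂ) ≠ 0 := by exact_mod_cast hq
  have hqR : (0 : ℝ) < q := by exact_mod_cast Nat.pos_of_ne_zero hq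
  let e : L →ₐ[ℚ] PadicAlgCl p := IsAlgClosed.lift
  have hnoL : ∀ k l, x l ≠ q / x k := by
    intro k l hkl
    by_cases hk : k = l
    · subst hk
      obtain ⟨-, h2⟩ := ne_conj hq hm hirr hpat (z k) ⟨i k, hi k⟩
      apply h2
      have h3 := congrArg j hkl
      rw [map_div₀, map_natCast, hx] at h3
      exact h3.symm
    · apply hno k l hk
      have h3 := congrArg j hkl
      rw [map_div₀, map_natCast, hx, hx] at h3
      have hz0 : z k ≠ 0 := by
        rw [← hx k, Ne, map_eq_zero]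
        exact hx0 k
      rw [h3]
      field_simp
  have hρ0 : ρ ≠ 0 := by
    rintro rfl
    have h1 := hroots 0 hρ
    rw [norm_zero] at h1
    norm_num at h1
    have : (0 : ℝ) < ((q : ℝ) ^ s) ^ w := by positivity
    linarith
  have hr00 : r0 ≠ 0 := by
    rintro rfl
    rw [map_zero] at hr0
    exact hρ0 hr0.symm
  set M : ℚ := ((p : ℚ) ^ a) ^ (s * w) with hM
  have hM0 : M ≠ 0 := pow_ne_zero _ (pow_ne_zero _ (by exact_mod_cast hp0.ne'))
  have hMq : ((M : ℚ) : ℂ) = ((((q : ℝ) ^ s) ^ w : ℝ) : ℂ) := by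
    rw [hM, hqp]
    push_cast
    rw [← pow_mul ((p : ℂ) ^ a)]
  -- divisibility of the minimal polynomial
  have hχL : aeval r0 χ = 0 := hdown χ r0 (by rw [hr0]; exact hρ)
  have hdvd : minpoly ℚ r0 ∣ χ.map (Int.castRingHom ℚ) := by
    apply minpoly.dvd
    rw [aeval_def, eval₂_map, RingHom.ext_int ((algebraMap ℚ L).comp (Int.castRingHom ℚ))
      (algebraMap ℤ L)]
    exact hχL
  have hconj : ∀ y : L, aeval y (minpoly ℚ r0) = 0 → aeval ((M : L) / y) (minpoly ℚ r0) = 0 := by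
    intro y hy
    have h1 : aeval (j y) (minpoly ℚ r0) = 0 := by
      have h2 := Polynomial.hom_eval₂ (minpoly ℚ r0) (algebraMap ℚ L) j y
      have h3 : eval₂ (algebraMap ℚ L) y (minpoly ℚ r0) = 0 := hy
      rw [h3, map_zero, RingHom.ext_rat (j.comp (algebraMap ℚ L)) (algebraMap ℚ ℂ)] at h2
      exact h2.symm
    have h2 : aeval (j y) χ = 0 := by
      obtain ⟨t, ht⟩ := hdvd
      have h3 : aeval (j y) (χ.map (Int.castRingHom ℚ)) = 0 := by
        rw [ht, map_mul, h1, zero_mul]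
      rw [aeval_def, eval₂_map, RingHom.ext_int ((algebraMap ℚ ℂ).comp (Int.castRingHom ℚ))
        (algebraMap ℤ ℂ)] at h3
      exact h3
    have h3 := hroots _ h2
    have hjy : j y ≠ 0 := by
      intro h4
      rw [h4, norm_zero] at h3
      norm_num at h3
      have : (0 : ℝ) < ((q : ℝ) ^ s) ^ w := by positivity
      linarith
    have h4 : j ((M : L) / y) = (starRingEnd ℂ) (j y) := by
      rw [map_div₀, map_ratCast, div_eq_iff hjy, mul_comm, Complex.mul_conj,
        Complex.normSq_eq_norm_sq, h3, hMq]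
    apply j.injective
    rw [map_zero]
    have h5 := Polynomial.hom_eval₂ (minpoly ℚ r0) (algebraMap ℚ L) j ((M : L) / y)
    have h6 := Polynomial.hom_eval₂ (minpoly ℚ r0) (algebraMap ℚ ℂ) (starRingEnd ℂ) (j y)
    have h7 : eval₂ (algebraMap ℚ ℂ) (j y) (minpoly ℚ r0) = 0 := h1
    rw [h7, map_zero, RingHom.ext_rat ((starRingEnd ℂ).comp (algebraMap ℚ ℂ)) (algebraMap ℚ ℂ)] at h6
    rw [RingHom.ext_rat (j.comp (algebraMap ℚ L)) (algebraMap ℚ ℂ), h4, ← h6] at h5
    exact h5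
  -- the relation
  have hrelL : ((∏ k, x k) ^ s * r0) ^ N = (((q : L) ^ s) ^ c) ^ N := by
    apply j.injective
    rw [map_pow, map_mul, map_pow, map_prod, hr0, map_pow, map_pow, map_pow, map_natCast,
      Finset.prod_congr rfl fun k _ => hx k]
    exact hrel
  have hlogq : Real.log ‖(((p : ℚ) ^ a : ℚ) : PadicAlgCl p)‖ = - Real.log ((p : ℝ) ^ a) := by
    rw [norm_pow_cast, Real.log_inv]
  have hrelσ : ∀ σ : L ≃ₐ[ℚ] L, dev p M (e (σ r0)) = -(s : ℝ) * ∑ k, dv p a e (σ (x k)) := by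
    intro σ
    have hne : ∀ k, ‖e (σ (x k))‖ ≠ 0 := by
      intro k
      rw [norm_ne_zero_iff, Ne, map_eq_zero, map_eq_zero]
      exact hx0 k
    have hner : ‖e (σ r0)‖ ≠ 0 := by
      rw [norm_ne_zero_iff, Ne, map_eq_zero, map_eq_zero]
      exact hr00
    have h1 := congrArg (fun y => Real.log ‖e (σ y)‖) hrelL
    have h2 : e (σ ((((q : L) ^ s) ^ c) ^ N)) =
        ((((p : ℚ) ^ a : ℚ) : PadicAlgCl p)) ^ (s * c * N) := by
      rw [map_pow, map_pow, map_pow, map_pow, map_pow, map_pow, map_natCast, map_natCast, hqp,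
        ← pow_mul, ← pow_mul]
      push_cast
      rw [mul_assoc]
    beta_reduce at h1
    rw [h2] at h1
    simp only [map_pow, map_mul, map_prod, norm_pow, norm_mul, norm_prod, Real.log_pow] at h1
    rw [Real.log_mul (pow_ne_zero _ (Finset.prod_ne_zero_iff.2 fun k _ => hne k)) hner,
      Real.log_pow, Real.log_prod (fun k _ => hne k), hlogq] at h1
    have h3 : ∑ k, dv p a e (σ (x k)) = 2 * ∑ k, Real.log ‖e (σ (x k))‖ +
        n * Real.log ((p : ℝ) ^ a) := by
      have h4 : ∀ k, dv p a e (σ (x k)) = 2 * Real.log ‖e (σ (x k))‖ + Real.log ((p : ℝ) ^ a) := by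
        intro k
        unfold dv dev
        rw [hlogq]
        ring
      rw [Finset.sum_congr rfl fun k _ => h4 k, Finset.sum_add_distrib, ← Finset.mul_sum,
        Finset.sum_const, Finset.card_univ, Fintype.card_fin, nsmul_eq_mul]
    have h5 : Real.log ‖((M : ℚ) : PadicAlgCl p)‖ = - ((s * w : ℕ) : ℝ) * Real.log ((p : ℝ) ^ a) := by
      have h6 : ((M : ℚ) : PadicAlgCl p) = ((((p : ℚ) ^ a : ℚ)) : PadicAlgCl p) ^ (s * w) := by
        rw [hM]; push_cast; rfl
      rw [h6, norm_pow, norm_pow_cast, Real.log_pow, Real.log_inv]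
      ring
    unfold dev
    rw [h5, h3]
    have hN0 : (N : ℝ) ≠ 0 := by exact_mod_cast hN.ne'
    have hncR : (n : ℝ) + w = 2 * c := by exact_mod_cast hnc
    apply mul_left_cancel₀ hN0
    push_cast at h1 ⊢
    have h7 : (w : ℝ) = 2 * c - n := by linarith
    rw [h7]
    linear_combination 2 * h1
  let k₀ : Fin n := ⟨0, hn⟩
  have hmean := mean_eq hq hm j hL p a ha hqp e (i k₀) (hirr _) (g (i k₀)) (hdeg _)
    (x k₀) (hxr k₀)
  have hwidth0 := hwidth (i k₀)
  have hG : (0 : ℝ) < Fintype.card (L ≃ₐ[ℚ] L) := by exact_mod_cast Fintype.card_pos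
  set W₀ := newtonWidth p (q : ℝ) 1 (weil q (h (i k₀))) with hW₀
  have hW₀pos : 0 < W₀ := lt_of_le_of_lt (newtonWidth_nonneg p ((q : ℝ) ^ s) w χ) hwidth0
  have hSpos : 0 < ∑ σ : L ≃ₐ[ℚ] L, |dv p a e (σ (x k₀))| := by
    by_contra hle
    have h1 : 0 < (Fintype.card (L ≃ₐ[ℚ] L) : ℝ) * (Real.log ((p : ℝ) ^ a) * W₀) := by positivity
    have h2 : (2 * (g (i k₀)) : ℝ) * ∑ σ : L ≃ₐ[ℚ] L, |dv p a e (σ (x k₀))| ≤ 0 :=
      mul_nonpos_of_nonneg_of_nonpos (by positivity) (not_lt.1 hle)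
    linarith
  have hne : ∃ σ : L ≃ₐ[ℚ] L, dv p a e (σ (x k₀)) ≠ 0 := by
    by_contra hall
    push Not at hall
    rw [Finset.sum_eq_zero fun σ _ => by rw [hall σ, abs_zero]] at hSpos
    exact lt_irrefl _ hSpos
  have hs0 : (0 : ℝ) < s := by exact_mod_cast hs
  have hdegρ := deg_ge hq hm j hL p a hqp e hirr hfl x i hxr hnoL k₀ hne M hM0 r0 hr00 hconj
    (-(s : ℝ)) (neg_ne_zero.2 hs0.ne') hrelσ
  have hgh : (h (i k₀)).natDegree = g (i k₀) := by
    have h1 := hdeg (i k₀)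
    rw [weil_natDegree q (hm _)] at h1
    omega
  rw [hgh] at hdegρ
  have hdegR : (2 * (g (i k₀)) : ℝ) ≤ (minpoly ℚ r0).natDegree := by exact_mod_cast hdegρ
  -- the upper bound
  have horb := Pool.Agent.W484.AS.sum_orbit p e r0 (fun y => |dev p M y|)
  have hup : (((minpoly ℚ r0).aroots (PadicAlgCl p)).map (fun y => |dev p M y|)).sum ≤
      s * Real.log ((p : ℝ) ^ a) * newtonWidth p ((q : ℝ) ^ s) w χ := by
    refine (sum_le_sum_of_le (Pool.Agent.W484.AS.aroots_le hχ hdvd) _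
      fun y => abs_nonneg _).trans ?_
    unfold newtonWidth
    rw [← Multiset.sum_map_mul_left]
    refine le_of_eq ?_
    congr 1
    refine Multiset.map_congr rfl fun y _ => ?_
    rw [hM, abs_dev_eq_width p a ha s w hs y, hqp]
    push_cast
    rfl
  have hlow : (s : ℝ) * ∑ σ : L ≃ₐ[ℚ] L, |dv p a e (σ (x k₀))| ≤
      ∑ σ : L ≃ₐ[ℚ] L, |dev p M (e (σ r0))| := by
    obtain ⟨ψ, h1, -, h3⟩ := hfl (i k₀) (x k₀) (hxr k₀)
    have h4 := sum_abs_ge (X := L) (G := L ≃ₐ[ℚ] L) (fun y => (q : L) / y) (dv p a e) x k₀ (by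
        intro σ
        change dv p a e (σ ((q : L) / x k₀)) = - dv p a e (σ (x k₀))
        rw [map_div₀, map_natCast]
        exact dv_inv p a hqp e _ (by rw [Ne, map_eq_zero]; exact hx0 k₀)) ψ h1
        (fun l hl => h3 (i l) (x l) (hxr l) hl (hnoL k₀ l))
    have h5 : ∀ σ : L ≃ₐ[ℚ] L, |dev p M (e (σ r0))| = s * |∑ k, dv p a e (σ (x k))| := by
      intro σ
      rw [hrelσ, abs_mul, abs_neg, abs_of_pos hs0]
    rw [Finset.sum_congr rfl fun σ _ => h5 σ, ← Finset.mul_sum]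
    exact mul_le_mul_of_nonneg_left h4 hs0.le
  set S₁ := ∑ σ : L ≃ₐ[ℚ] L, |dv p a e (σ (x k₀))| with hS₁
  set S₂ := ∑ σ : L ≃ₐ[ℚ] L, |dev p M (e (σ r0))| with hS₂
  set W := newtonWidth p ((q : ℝ) ^ s) w χ with hW
  set l := Real.log ((p : ℝ) ^ a) with hl'
  have h1 : (2 * (g (i k₀)) : ℝ) * (s * S₁) ≤ Fintype.card (L ≃ₐ[ℚ] L) * (s * l * W) := by
    calc (2 * (g (i k₀)) : ℝ) * (s * S₁) ≤ (minpoly ℚ r0).natDegree * S₂ :=
          mul_le_mul hdegR hlow (by positivity) (Nat.cast_nonneg _)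
      _ = _ := horb
      _ ≤ _ := mul_le_mul_of_nonneg_left hup hG.le
  have h2 : (Fintype.card (L ≃ₐ[ℚ] L) : ℝ) * s * l * W₀ ≤
      (Fintype.card (L ≃ₐ[ℚ] L) : ℝ) * s * l * W := by
    have h3 : (s : ℝ) * (Fintype.card (L ≃ₐ[ℚ] L) * (l * W₀)) = s * (2 * g (i k₀) * S₁) :=
      congrArg (fun y => (s : ℝ) * y) hmean
    nlinarith
  have h3 : W₀ ≤ W := le_of_mul_le_mul_left h2 (by positivity)
  linarith

end Pool.Agent.N205.NS
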