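import Mathlib
import Pool.Agent.N205.NS.Width
import Pool.Agent.N205.NS.Main

/-! Newton strata and `p`-rank strata of Weil polynomials. -/

set_option autoImplicit false

namespace Pool.Agent.N205.NS

open Polynomial Pool.Agent.W521.Frob Pool.Agent.W521.Descent
  Pool.Agent.W521.Density Pool.Agent.W521.Count Pool.Agent.W521.Bad Pool.Agent.W484.TB

/-- **The count.** -/
theorem strata_count (U : Set ℕ) (hU : Pool.Agent.W484.TB.Dense U) {I : Type} [Fintype I]
    (g : I → ℕ) (hg : ∀ i, 0 < g i) (P : ℕ → (I → ℤ[X]) → Prop)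
    (hP : ∀ q : ℕ, IsPrimePow q → ∀ x : (Σ i, Fin (g i)) → ℤ,
      GoodU U g q x → P q (fun i => weil q (polys g x i))) :
    ∃ C : ℝ, ∀ p a t : ℕ, p.Prime → 0 < a → 0 < t → ∀ S : I → Set ℤ[X],
      (∀ i, IsStratum p a (g i) t (S i)) →
      (∀ i, (S i).Finite ∧ (4 ^ g i ≤ p ^ t → (S i).Nonempty)) ∧
      ({f : I → ℤ[X] | (∀ i, f i ∈ S i) ∧ ¬ P (p ^ a) f}.ncard : ℝ) ≤
        C * (Real.log ((p ^ t : ℕ) : ℝ) * ((p ^ t : ℕ) : ℝ) ^ (-(1 / 6) : ℝ)) *
          ∏ i, ((S i).ncard : ℝ) := by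
  obtain ⟨C, hC⟩ := newton_count U hU g hg
  refine ⟨C, fun p a t hp ha ht S hS => ?_⟩
  choose m T hD hR hS1 hS2 using hS
  exact hC p a t hp ht m T hD (fun i j => hR i j) (P (p ^ a))
    (fun x hx => hP _ (hp.isPrimePow.pow ha.ne') x hx) S (fun i => ⟨hS1 i, hS2 i⟩)

theorem slope_le_all {a g : ℕ} {b : ℕ → ℝ} (h : IsHalfPolygon a g b) :
    ∀ d k, k + d = g → 1 ≤ k → b k - b (k - 1) ≤ a / 2 := by
  intro d
  induction d with
  | zero =>
    intro k hk _
    have : k = g := by omega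
    rw [this]
    exact h.slope_le
  | succ d ih =>
    intro k hk hk1
    have h1 := h.convex k hk1 (by omega)
    have h2 := ih (k + 1) (by omega) (by omega)
    rw [Nat.add_sub_cancel] at h2
    linarith

theorem le_add {a g : ℕ} {b : ℕ → ℝ} (h : IsHalfPolygon a g b) (l : ℕ) :
    ∀ i, l + i ≤ g → b (l + i) ≤ b l + i * (a / 2) := by
  intro i
  induction i with
  | zero => intro _; simp
  | succ i ih =>
    intro hi
    have h1 := ih (by omega)
    have h2 := slope_le_all h (g - (l + i + 1)) (l + i + 1) (by omega) (by omega)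
    rw [Nat.add_sub_cancel] at h2
    rw [← add_assoc]
    push_cast
    linarith

theorem isData_newton {a g : ℕ} {b : ℕ → ℝ} (h : IsHalfPolygon a g b) :
    IsData a g (fun j => ⌈b j⌉₊) (IsBreak a g b) := by
  refine ⟨by simp [h.zero], ?_, ?_⟩
  · intro j i hi h2i hj
    have h1 := le_add h (j - 2 * i) (2 * i) (by omega)
    have h2 : j - 2 * i + 2 * i = j := by omega
    rw [h2] at h1
    rw [Nat.ceil_le]
    have h3 := Nat.le_ceil (b (j - 2 * i))
    push_cast at h1 ⊢
    linarith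
  · intro j i hT hi h2i hj
    obtain ⟨n, hn⟩ := h.integral j hT
    have hlt : b j - b (j - 1) < a / 2 := by
      rcases hT with ⟨h1, h2, h3⟩ | ⟨h1, h2⟩
      · have h4 := slope_le_all h (g - (j + 1)) (j + 1) (by omega) (by omega)
        rw [Nat.add_sub_cancel] at h4
        linarith
      · rw [h1]
        exact h2
    have h1 := le_add h (j - 2 * i) (2 * i - 1) (by omega)
    have h2 : j - 2 * i + (2 * i - 1) = j - 1 := by omega
    rw [h2] at h1
    have h4 : ((2 * i - 1 : ℕ) : ℝ) = 2 * i - 1 := by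
      rw [Nat.cast_sub (by omega)]
      push_cast
      rfl
    rw [h4] at h1
    have h3 := Nat.le_ceil (b (j - 2 * i))
    have h5 : ((n : ℕ) : ℝ) < ((⌈b (j - 2 * i)⌉₊ + a * i : ℕ) : ℝ) := by
      rw [← hn]
      push_cast
      linarith
    have h6 : n < ⌈b (j - 2 * i)⌉₊ + a * i := by exact_mod_cast h5
    have h7 : ⌈b j⌉₊ = n := by rw [hn, Nat.ceil_natCast]
    rw [h7]
    exact h6

/-- Newton strata are strata. -/
theorem isStratum_newton {p a g t : ℕ} {b : ℕ → ℝ} (h : IsHalfPolygon a g b)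
    (ht : ∀ j, 1 ≤ j → j ≤ g → t + 2 * ⌈b j⌉₊ ≤ a * j) {S : Set ℤ[X]}
    (h1 : withNewton p a g b ⊆ S) (h2 : S ⊆ aboveNewton p a g b) : IsStratum p a g t S :=
  ⟨fun j => ⌈b j⌉₊, IsBreak a g b, isData_newton h, ht, h1, h2⟩

/-- the condition on `t` in terms of the first slope -/
theorem room_of_slope {a g t : ℕ} {b : ℕ → ℝ} (h : IsHalfPolygon a g b)
    (ht : (t : ℝ) + 1 ≤ a - 2 * b 1) : ∀ j, 1 ≤ j → j ≤ g → t + 2 * ⌈b j⌉₊ ≤ a * j := by
  intro j hj1 hj
  have h1 := le_add h 1 (j - 1) (by omega)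
  have h2 : 1 + (j - 1) = j := by omega
  rw [h2, Nat.cast_sub hj1] at h1
  have hb0 : 0 ≤ b j := by
    have key : ∀ k, k + 1 ≤ g → 0 ≤ b (k + 1) ∧ 0 ≤ b (k + 1) - b k := by
      intro k
      induction k with
      | zero =>
        intro _
        have := h.nonneg
        rw [zero_add, h.zero, sub_zero]
        exact ⟨this, this⟩
      | succ k ih =>
        intro hk
        obtain ⟨h3, h4⟩ := ih (by omega)
        have h5 := h.convex (k + 1) (by omega) (by omega)
        rw [Nat.add_sub_cancel] at h5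
        exact ⟨by linarith, by linarith⟩
    have := (key (j - 1) (by omega)).1
    rwa [Nat.sub_add_cancel hj1] at this
  have h3 := Nat.ceil_lt_add_one hb0
  have h4 : ((t + 2 * ⌈b j⌉₊ : ℕ) : ℝ) < ((a * j + 1 : ℕ) : ℝ) := by
    push_cast at h1 ⊢
    nlinarith
  have h5 : t + 2 * ⌈b j⌉₊ < a * j + 1 := by exact_mod_cast h4
  omega

/-- the condition on `t` in the case of `p`-rank at least two -/
theorem room_of_rank {a g t : ℕ} {b : ℕ → ℝ} (ha : 0 < a) (h : IsHalfPolygon a g b) (hg : 2 ≤ g)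
    (hb : b 2 = 0) (ht : t ≤ a) : ∀ j, 1 ≤ j → j ≤ g → t + 2 * ⌈b j⌉₊ ≤ a * j := by
  intro j hj1 hj
  have hb1 : b 1 = 0 := by
    have h1 := h.convex 1 le_rfl (by omega)
    have h2 := h.nonneg
    rw [Nat.sub_self, h.zero, hb] at h1
    linarith
  rcases Nat.lt_or_ge j 3 with h3 | h3
  · have h4 : ⌈b j⌉₊ = 0 := by
      have h5 : j = 1 ∨ j = 2 := by omega
      rcases h5 with h5 | h5
      · rw [h5, hb1, Nat.ceil_zero]
      · rw [h5, hb, Nat.ceil_zero]
    rw [h4]
    have h6 : a * 1 ≤ a * j := Nat.mul_le_mul_left a hj1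
    omega
  · have h1 := le_add h 2 (j - 2) (by omega)
    have h2 : 2 + (j - 2) = j := by omega
    rw [h2, hb, zero_add] at h1
    have h4 : ⌈b j⌉₊ ≤ ((j - 2) * a + 1) / 2 := by
      rw [Nat.ceil_le]
      have h5 : ((j - 2) * a : ℕ) ≤ 2 * (((j - 2) * a + 1) / 2) := by omega
      have h6 : (((j - 2 : ℕ) : ℝ)) * a ≤ 2 * ((((j - 2) * a + 1) / 2 : ℕ) : ℝ) := by
        exact_mod_cast h5
      linarith
    obtain ⟨k, rfl⟩ : ∃ k, j = k + 2 := ⟨j - 2, by omega⟩
    rw [Nat.add_sub_cancel] at h4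
    have h5 : a * (k + 2) = k * a + 2 * a := by ring
    rw [h5]
    omega

/-- The sets of the Weil polynomials of given `p`-rank are strata. -/
theorem isStratum_rank {p a g r t : ℕ} (hp : p.Prime) (ha : 0 < a) (hr : r ≤ g)
    (ht1 : 1 ≤ r → t ≤ a) (ht2 : r < g → t + 2 ≤ a * (r + 1)) :
    IsStratum p a g t (withRank p a g r) := by
  refine ⟨fun j => if j ≤ r then 0 else 1, fun j => j = r, ⟨by simp, ?_, ?_⟩, ?_, ?_, ?_⟩
  · intro j i hi h2i hj
    have h1 : 1 ≤ a * i := Nat.mul_pos ha hi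
    split_ifs <;> omega
  · intro j i hT hi h2i hj
    have h1 : 1 ≤ a * i := Nat.mul_pos ha hi
    rw [if_pos hT.le]
    omega
  · intro j hj1 hj
    by_cases h1 : j ≤ r
    · simp only [if_pos h1]
      have h2 := ht1 (by omega)
      have h3 : a * 1 ≤ a * j := Nat.mul_le_mul_left a hj1
      omega
    · simp only [if_neg h1]
      have h2 := ht2 (by omega)
      have h3 : a * (r + 1) ≤ a * j := Nat.mul_le_mul_left a (by omega)
      omega
  · rintro f ⟨⟨h1, h2⟩, h3⟩
    refine ⟨h1, ?_, ?_⟩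
    · rcases Nat.eq_zero_or_pos r with h0 | h0
      · subst h0
        have h4 : f.coeff (2 * g - 0) = 1 := by
          have h5 := h1.1.coeff_natDegree
          rwa [h1.2.1] at h5
        rw [h4]
        intro h5
        have h6 := Int.isUnit_iff.1 (isUnit_of_dvd_one h5)
        have := hp.two_le
        omega
      · have h4 := h3 r h0 hr rfl
        simpa using h4
    · intro j hj1 hj
      have h4 := h2 j hj
      have h5 : ¬ j ≤ r := by omega
      simp only [if_neg h5, pow_one] at h4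
      exact h4
  · rintro f ⟨h1, h2, h3⟩
    refine ⟨h1, fun j hj => ?_⟩
    simp only
    split_ifs with h4
    · rw [pow_zero]
      exact one_dvd _
    · rw [pow_one]
      exact h3 j (by omega) hj

theorem strataFacts : StrataFacts := by
  refine ⟨?_, fun p a g r t hp ha hr h1 h2 => isStratum_rank hp ha hr h1 h2⟩
  intro p a g t b ha hb ht S h1 h2
  refine isStratum_newton hb ?_ h1 h2
  rcases ht with h | ⟨h, h', h''⟩ | h
  · exact room_of_slope hb h
  · exact room_of_rank ha hb h h' h''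
  · exact h

/-- The Newton width of the elements of an open stratum. -/
theorem width_stratum {p a g : ℕ} [Fact p.Prime] (ha : 0 < a) {m : ℕ → ℕ} {T : ℕ → Prop} {f : ℤ[X]}
    (hf : f ∈ Open p a g m T) {j : ℕ} (hj1 : 1 ≤ j) (hj : j ≤ g) (hT : T j) :
    2 * ((j : ℝ) - 2 * m j / a) ≤ Pool.Agent.W484.AA.newtonWidth p ((p ^ a : ℕ) : ℝ) 1 f :=
  width_ge p a g j (m j) ha f hf.1.1.1 hf.1.1.2.1 (by omega) (hf.2 j hj1 hj hT) hf.1.1.2.2.1

end Pool.Agent.N205.NS
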