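import Mathlib
import Pool.Agent.W484.AA.Tate
import Pool.Agent.N205.NS.Defs

/-! The Tate conjecture for products with varieties of smaller Newton width: definitions. -/

set_option autoImplicit false

namespace Pool.Agent.N205.NS

open Polynomial Pool.Agent.W484.AA

/-- `G` is an endomorphism with characteristic polynomial `χ`, all roots of `χ` have the absolute
value `Q ^ (w / 2)`, `Q = q ^ s`, and the sum of the `|2 λ - w|`, `λ` the slopes of `χ`, is smaller
than the sum of the `|2 λ - 1|`, `λ` the slopes of `f i`, for all `i`. -/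
def IsNarrower {I : Type} (q s w : ℕ) (f : I → ℤ[X]) {H : Type} [AddCommGroup H] [Module ℂ H]
    [FiniteDimensional ℂ H] (G : H →ₗ[ℂ] H) (χ : ℤ[X]) : Prop :=
  G.charpoly = χ.map (Int.castRingHom ℂ) ∧ (∀ z : ℂ, aeval z χ = 0 → ‖z‖ ^ 2 = ((q : ℝ) ^ s) ^ w) ∧
    ∀ (p : ℕ) [Fact p.Prime], p ∣ q → ∀ i,
      newtonWidth p ((q : ℝ) ^ s) w χ < newtonWidth p (q : ℝ) 1 (f i)

/-- The formula for all products of powers of abelian varieties with characteristic polynomials
`f i`, all extensions, and all `H` of smaller width. -/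
def TateForNarrower {I : Type} (q : ℕ) (f : I → ℤ[X]) : Prop :=
  ∀ (V : Type) [AddCommGroup V] [Module ℂ V] [FiniteDimensional ℂ V] (F : V →ₗ[ℂ] V),
    Submodule.span ℂ {v : V | ∃ i, ∃ z : ℂ, aeval z (f i) = 0 ∧ F v = z • v} = ⊤ →
    ∀ s : ℕ, 0 < s →
    ∀ (H : Type) [AddCommGroup H] [Module ℂ H] [FiniteDimensional ℂ H] (G : H →ₗ[ℂ] H) (w : ℕ)
      (χ : ℤ[X]), IsNarrower q s w f G χ → TateFormula ((q : ℂ) ^ s) (F ^ s) G w

/-- The width in the strata: the sum of the `|2 λ - 1|`, `λ` the slopes of a Weil polynomial with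
Newton polygon `b`, is at least `2 * (j - 2 * b j / a)` for the break points `j` (with equality for
the last one); it is at least `2 * r` if the `p`-rank is `r`. -/
def WidthFacts : Prop :=
  (∀ (p a g : ℕ) [Fact p.Prime] (b : ℕ → ℝ), 0 < a → IsHalfPolygon a g b →
    ∀ f ∈ withNewton p a g b, ∀ j, 1 ≤ j → j ≤ g → IsBreak a g b j →
      2 * ((j : ℝ) - 2 * b j / a) ≤ newtonWidth p ((p ^ a : ℕ) : ℝ) 1 f) ∧
  ∀ (p a g r : ℕ) [Fact p.Prime], 0 < a → r ≤ g → ∀ f ∈ withRank p a g r,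
    2 * (r : ℝ) ≤ newtonWidth p ((p ^ a : ℕ) : ℝ) 1 f

end Pool.Agent.N205.NS
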