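import Mathlib
import Pool.Agent.W484.AA.Tate
import Pool.Agent.N205.NS.Width
import Pool.Agent.N205.NS.NarrowDefs

/-! The Tate conjecture for products with varieties of smaller Newton width. -/

set_option autoImplicit false
set_option linter.unusedSectionVars false

namespace Pool.Agent.N205.NS

open Polynomial TensorProduct Pool.Agent.H925R2 Pool.Agent.H485R3 Pool.Agent.W484.BB
  Pool.Agent.W521.Frob Pool.Agent.W521.Criterion Pool.Agent.W521.Descent
  Pool.Agent.W521.Density Pool.Agent.W484.AA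

theorem tateForNarrower_of_good {I : Type} [Fintype I] [DecidableEq I] (g : I → ℕ)
    {q : ℕ} (hqpp : IsPrimePow q)
    (x : (Σ i, Fin (g i)) → ℤ) (hx : Pool.Agent.W521.Bad.Good g q x) :
    TateForNarrower q (fun i => weil q (polys g x i)) := by
  classical
  intro V _ _ _ F hF s hs H _ _ _ G w χ hχ n c N hnc hN u hu
  obtain ⟨hpat, hirr, -⟩ := hx
  rw [isPrimePow_nat_iff] at hqpp
  obtain ⟨p, a, hp, ha, hqp⟩ := hqpp
  have : Fact p.Prime := ⟨hp⟩
  have hq0 : q ≠ 0 := by rw [← hqp]; exact pow_ne_zero _ hp.ne_zero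
  have hm : ∀ i, (polys g x i).Monic := fun i => mkPoly_monic (g i) _
  obtain ⟨hχ1, hχ2, hχ3⟩ := hχ
  have hχm : χ.Monic := by
    have h1 := G.charpoly_monic
    rw [hχ1] at h1
    exact Polynomial.monic_of_injective (Int.castRingHom ℂ).injective_int h1
  let X := {z : ℂ // ∃ i, aeval z (weil q (polys g x i)) = 0}
  let val : X → ℂ := fun z => (z : ℂ) ^ s
  have hspan : Submodule.span ℂ {v : V | ∃ y : X, (F ^ s) v = val y • v} = ⊤ := by
    rw [eq_top_iff, ← hF]
    refine Submodule.span_mono ?_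
    rintro v ⟨i, z, hz, hv⟩
    exact ⟨⟨z, i, hz⟩, pow_apply_eigen F v z hv s⟩
  have hQ : (q : ℂ) ^ s ≠ 0 := pow_ne_zero _ (by exact_mod_cast hq0)
  refine mem_tateProducts (F ^ s) val hspan ((q : ℂ) ^ s) hQ G w ?_ n c N hN hnc u hu
  intro ρ hρe n c N hN hn hnc ys hlen hrel hpw
  have hρ : aeval ρ χ = 0 := by
    have h1 := Module.End.hasEigenvalue_iff_isRoot_charpoly _ _ |>.1 hρe
    rw [hχ1, IsRoot.def, eval_map, RingHom.ext_int (Int.castRingHom ℂ) (algebraMap ℤ ℂ)] at h1
    exact h1
  have hpq : p ∣ q := by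
    rw [← hqp]
    exact dvd_pow_self _ ha.ne'
  refine no_relation' p a ha hqp.symm hm hirr hpat g
    (fun i => by rw [weil_natDegree q (hm i)]; unfold polys; rw [mkPoly_natDegree])
    s hs w χ hχm hχ2
    (hχ3 p hpq) ρ hρ hn c hnc N hN
    (fun l => ((ys.get (Fin.cast hlen.symm l) : X) : ℂ))
    (fun l => (ys.get (Fin.cast hlen.symm l)).2) ?_ ?_
  · rw [← hrel]
    congr 2
    have h6 : ∏ l : Fin n, ((ys.get (Fin.cast hlen.symm l) : X) : ℂ) =
        (ys.map (fun y : X => (y : ℂ))).prod := by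
      have h61 : ∏ l : Fin n, ((ys.get (Fin.cast hlen.symm l) : X) : ℂ) =
          ∏ l : Fin ys.length, ((ys.get l : X) : ℂ) :=
        Fintype.prod_equiv (finCongr hlen.symm) _ _ fun l => rfl
      rw [h61, ← List.prod_ofFn]
      congr 1
      apply List.ext_getElem
      · simp
      · intro i h1 h2
        simp
    rw [h6]
    have h7 : ∀ ys : List X, (ys.map (fun y : X => (y : ℂ))).prod ^ s = (ys.map val).prod := by
      intro ys
      induction ys with
      | nil => simp
      | cons y ys ih =>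
        rw [List.map_cons, List.prod_cons, mul_pow, ih, List.map_cons, List.prod_cons]
    exact h7 ys
  · have hbad : ∀ k' l' : Fin ys.length, k' < l' →
        ((ys.get k' : X) : ℂ) * ((ys.get l' : X) : ℂ) ≠ q := by
      intro k' l' hkl h8
      refine (List.pairwise_iff_get.1 hpw) k' l' hkl ⟨1, one_pos, ?_⟩
      rw [pow_one, pow_one]
      change ((ys.get k' : X) : ℂ) ^ s * ((ys.get l' : X) : ℂ) ^ s = _
      rw [← mul_pow, h8]
    intro k' l' hkl
    rcases lt_or_gt_of_ne hkl with h | h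
    · exact hbad _ _ h
    · intro h8
      rw [mul_comm] at h8
      exact hbad _ _ h h8

end Pool.Agent.N205.NS
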