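import Mathlib
import Pool.Agent.W484.TB.Pair
import Pool.Agent.N205.NS.Narrow
import Pool.Agent.N205.NS.Final

/-! The Tate conjecture in Newton strata. -/

set_option autoImplicit false

namespace Pool.Agent.N205.NS

open Polynomial Pool.Agent.W521.Frob Pool.Agent.W521.Descent
  Pool.Agent.W521.Density Pool.Agent.W521.Count Pool.Agent.W521.Bad Pool.Agent.W484.TB
  Pool.Agent.W484.AA

theorem widthFacts : WidthFacts := by
  constructor
  · intro p a g _ b ha hb f hf j hj1 hj hbr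
    obtain ⟨n, hn⟩ := hb.integral j hbr
    have h1 := width_ge p a g j ⌈b j⌉₊ ha f hf.1.1.1 hf.1.1.2.1 (by omega) (hf.2 j hj1 hj hbr)
      hf.1.1.2.2.1
    have h2 : ((⌈b j⌉₊ : ℕ) : ℝ) = b j := by rw [hn, Nat.ceil_natCast]
    rw [h2] at h1
    exact h1
  · intro p a g r _ ha hr f hf
    have h1 := width_ge p a g r 0 ha f hf.1.1 hf.1.2.1 (by omega) (by simpa using hf.2.1)
      hf.1.2.2.1
    simpa using h1

theorem good_of_goodU {U : Set ℕ} {I : Type} {g : I → ℕ} {q : ℕ} {x : (Σ i, Fin (g i)) → ℤ}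
    (h : GoodU U g q x) : Pool.Agent.W521.Bad.Good g q x :=
  ⟨fun i => by
    obtain ⟨l, h1, h2, h3, -, h4⟩ := h.1 i
    exact ⟨l, h1, h2, h3, h4⟩, h.2.1, h.2.2⟩

theorem tate_strata {I : Type} [Fintype I] (g : I → ℕ) (r : ℕ) (hr : ∀ i, r < g i)
    (E : IntermediateField ℚ ℂ) [FiniteDimensional ℚ E] :
    ∃ C : ℝ, ∀ p a t : ℕ, p.Prime → 0 < a → 0 < t → ∀ S : I → Set ℤ[X],
      (∀ i, IsStratum p a (g i) t (S i)) →
      (∀ i, (S i).Finite ∧ (4 ^ g i ≤ p ^ t → (S i).Nonempty)) ∧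
      ({f : I → ℤ[X] | (∀ i, f i ∈ S i) ∧
        ¬ (TateForRankOver E (p ^ a) r f ∧ TateForNarrower (p ^ a) f)}.ncard : ℝ) ≤
        C * (Real.log ((p ^ t : ℕ) : ℝ) * ((p ^ t : ℕ) : ℝ) ^ (-(1 / 6) : ℝ)) *
          ∏ i, ((S i).ncard : ℝ) := by
  classical
  exact strata_count (splitPrimes E) (dense_splitPrimes E) g
    (fun i => (Nat.zero_le r).trans_lt (hr i))
    (fun q f => TateForRankOver E q r f ∧ TateForNarrower q f)
    fun q hq x hx => ⟨tateForRankOver_of_good g E hq.pos.ne' r hr x hx,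
      tateForNarrower_of_good g hq x (good_of_goodU hx)⟩

end Pool.Agent.N205.NS
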