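import Mathlib
import Pool.Agent.W484.HS.Num
import Pool.Agent.W484.TB.Pair
import Pool.Agent.TH132.A.Defs

/-!
# The standard conjectures for products of abelian varieties with varieties of rank at most `r` over a
number field
-/

set_option autoImplicit false

open CategoryTheory AlgebraicGeometry Polynomial

universe u v

namespace Pool.Agent.N205.NS

open Pool.Agent.H914 Pool.Agent.H914.VarClass Pool.Agent.H914.VarClass.Obj
  Pool.Agent.H914.WeilCohomology Pool.Agent.H281R3.HT Pool.Agent.W552 Pool.Agent.W484.AA
  Pool.Agent.W484.HS Pool.Agent.W484.TB Pool.Agent.TH132.A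

/-- The eigenvalues of `f` are roots of a nonzero rational polynomial, all of whose roots in `ℂ` have
powers which lie in a group generated by the nonzero elements of the number field `E` and `r`
numbers. -/
def HasRankOver {K : Type*} [Field K] [CharZero K] {R : Type*} [Ring R] [Algebra K R]
    (E : IntermediateField ℚ ℂ) (r : ℕ) (f : R →ₐ[K] R) : Prop :=
  ∃ χ : ℚ[X], χ ≠ 0 ∧ (∀ (ρ : K) (c : R), c ≠ 0 → f c = ρ • c → aeval ρ χ = 0) ∧
    RankLEOver E r {ρ : ℂ | aeval ρ χ = 0}

/-- The fundamental class of `X` is not homologically equivalent to zero. -/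
def NonzeroFund {k : Type u} [Field k] {𝒱 : VarClass k} {ops : CycleOps 𝒱}
    (W : WeilCohomology.{u, v} ops) (X : 𝒱.Obj) : Prop := ¬ HomEq W X.V.fundCycle 0

/-- Homological and numerical equivalence for products with varieties of rank at most `r` over `E`:
for every algebraically closed field, every class of smooth projective varieties over it closed under
products, every Weil cohomology with algebraically closed coefficient field, every `A` with a
Frobenius endomorphism `f` of type `F` relative to the field with `q ^ s` elements, and every `Y`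
with a Frobenius endomorphism `f'` relative to the same field, of rank at most `r` over `E`: the
cycles on `A × Y` are homologically equivalent to sums of products of cycles on `A` and on `Y`,
homological and numerical equivalence coincide on `A`, and they coincide on `A × Y` if and only if
they coincide on `Y`. -/
def NumForRankOver (E : IntermediateField ℚ ℂ) (q r : ℕ) {I : Type} (F : I → ℤ[X]) : Prop :=
  ∀ (k : Type u) [Field k] [IsAlgClosed k] (𝒱 : VarClass k) (ops : CycleOps 𝒱)
    (W : WeilCohomology.{u, v} ops) [IsAlgClosed W.K] (s : ℕ), 0 < s →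
    ∀ (A : Polarized 𝒱) (Y : 𝒱.Obj) (f : A.X ⟶ A.X) (f' : Y ⟶ Y),
      IsAbelianFrobenius W q s F A f → HasRankOver E r (W.map f') →
      FrobeniusOnCycles W (A.X.prod Y) (pairMap f f') (q ^ s) →
      CyclesSplit W A.X Y ∧ HomEqNum W A.X ∧ (HomEqNum W (A.X.prod Y) ↔ HomEqNum W Y)

/-- The conjecture `A` for products with varieties of rank at most `r` over `E`: for `A` and `Y` as
in `NumForRankOver`, each divisor `C` on `A × Y` is homologically equivalent to a sum
`D × Y + A × B` of divisors from the factors; and if `C` satisfies hard Lefschetz for `A × Y` then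
`D` satisfies hard Lefschetz for `A`, `B` satisfies hard Lefschetz for `Y`, and the conjecture `A`
for `A × Y` and `C` holds if and only if the conjecture `A` for `Y` and `B` holds. -/
def LefschetzForRankOver (E : IntermediateField ℚ ℂ) (q r : ℕ) {I : Type} (F : I → ℤ[X]) : Prop :=
  ∀ (k : Type u) [Field k] [IsAlgClosed k] (𝒱 : VarClass k) (ops : CycleOps 𝒱)
    (W : WeilCohomology.{u, v} ops) [IsAlgClosed W.K] (s : ℕ), 0 < s →
    ∀ (A : Polarized 𝒱) (Y : 𝒱.Obj) (f : A.X ⟶ A.X) (f' : Y ⟶ Y),
      IsAbelianFrobenius W q s F A f → HasRankOver E r (W.map f') →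
      FrobeniusOnCycles W (A.X.prod Y) (pairMap f f') (q ^ s) → NonzeroFund W (A.X.prod Y) →
      (∀ C, (A.X.prod Y).IsCyc 1 C → ∃ D B, IsSumOf W C D B) ∧
      ∀ C D B, (A.X.prod Y).IsCyc 1 C → IsSumOf W C D B → HardLefschetz W (A.X.prod Y) C →
        HardLefschetz W A.X D ∧ HardLefschetz W Y B ∧
          (LefschetzA W (A.X.prod Y) C ↔ LefschetzA W Y B)

/-- The conjecture of Hodge type for products with varieties of rank at most `r` over `E`: for `A`
and `Y` as in `NumForRankOver`, with divisors `A.D` and `Y.D` which satisfy hard Lefschetz, such that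
the conjecture of Hodge type holds for `A` and `A.D`: it holds for `A × Y` and
`A.D × Y + A × Y.D` if and only if it holds for `Y` and `Y.D`. -/
def HodgeForRankOver (E : IntermediateField ℚ ℂ) (q r : ℕ) {I : Type} (F : I → ℤ[X]) : Prop :=
  ∀ (k : Type u) [Field k] [IsAlgClosed k] (𝒱 : VarClass k) (ops : CycleOps 𝒱)
    (W : WeilCohomology.{u, v} ops) [IsAlgClosed W.K] (s : ℕ), 0 < s →
    ∀ (A Y : Polarized 𝒱) (f : A.X ⟶ A.X) (f' : Y.X ⟶ Y.X),
      IsAbelianFrobenius W q s F A f → HasRankOver E r (W.map f') →
      FrobeniusOnCycles W (A.X.prod Y.X) (pairMap f f') (q ^ s) →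
      HardLefschetz W A.X A.D → Y.X.IsCyc 1 Y.D → HardLefschetz W Y.X Y.D →
      HodgeType W A.X A.D →
        (HodgeType W (A.prod ops Y).X (A.prod ops Y).D ↔ HodgeType W Y.X Y.D)

end Pool.Agent.N205.NS
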