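import Mathlib
import Pool.Agent.N205.NS.StdDefs
import Pool.Agent.N205.NS.Tate
import Pool.Agent.TH132.A.Hodge

/-!
# The standard conjectures for products of abelian varieties with varieties of rank at most `r` over a
number field: proofs
-/

set_option autoImplicit false

open CategoryTheory AlgebraicGeometry Polynomial

universe u v

namespace Pool.Agent.N205.NS

open Pool.Agent.H914 Pool.Agent.H914.VarClass Pool.Agent.H914.VarClass.Obj
  Pool.Agent.H914.WeilCohomology Pool.Agent.H281R3.HT Pool.Agent.W552 Pool.Agent.W484.AA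
  Pool.Agent.W484.HS Pool.Agent.W484.TB Pool.Agent.TH132.A
  Pool.Agent.W521.Frob Pool.Agent.W521.Count Pool.Agent.W521.Bad Pool.Agent.W521.Descent
  Pool.Agent.W521.Density

section

variable {k : Type u} [Field k] {𝒱 : VarClass k} {ops : CycleOps 𝒱} {W : WeilCohomology.{u, v} ops}
  {Y : 𝒱.Obj}

theorem root_of_rank {f : Y ⟶ Y} {χ : ℚ[X]}
    (hχ : ∀ (ρ : W.K) (c : W.H Y), c ≠ 0 → W.map f c = ρ • c → aeval ρ χ = 0) {ρ : W.K}
    (hρ : Module.End.HasEigenvalue (W.map f).toLinearMap ρ) : aeval ρ χ = 0 := by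
  obtain ⟨v, hv⟩ := hρ.exists_hasEigenvector
  exact hχ ρ v hv.2 hv.apply_eq_smul

theorem one_ne_deg {D : Y.Cycles} (hD : Y.IsCyc 1 D)
    (h : 0 < Y.V.degCycle (divPow ops D Y.dim Y.V.fundCycle)) : (1 : W.H Y) ≠ 0 := by
  intro h0
  have h1 := divPow_mem (ops := ops) hD Y.dim Y.V.fundCycle_mem
  rw [zero_add] at h1
  have h2 := W.tr_cl h1
  rw [← mul_one (W.cl Y _), h0, mul_zero, map_zero] at h2
  rw [← Rat.cast_zero] at h2
  rw [← Rat.cast_injective (α := W.K) h2] at h
  exact lt_irrefl _ h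

variable {I : Type} [Finite I] (g : I → ℕ) (E : IntermediateField ℚ ℂ) [FiniteDimensional ℚ E]
  {q : ℕ} (hq : q ≠ 0) (r : ℕ) (hr : ∀ i, r < g i)
  (x : (Σ i, Fin (g i)) → ℤ) (hx : GoodU (splitPrimes E) g q x)

include hq hr hx

/-- The algebraic classes on the product. -/
theorem alg_mem_mix_over [IsAlgClosed W.K] {s : ℕ} (hs : 0 < s) {A : Polarized 𝒱}
    {f : A.X ⟶ A.X}
    (hA : IsAbelianFrobenius W q s (fun i => weil q (polys g x i)) A f) {f' : Y ⟶ Y}
    (hY : HasRankOver E r (W.map f'))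
    (hF : FrobeniusOnCycles W (A.X.prod Y) (pairMap f f') (q ^ s)) (i : ℕ) (z)
    (hz : (A.X.prod Y).IsCyc i z) : W.cl (A.X.prod Y) z ∈ mixSpan W A.X Y := by
  obtain ⟨χ, hχ, hχ0, hrank⟩ := hY
  obtain ⟨m, hm, hm'⟩ := hF i z hz
  have hpull : ∀ (m : ℕ) (z : (A.X.prod Y).Cycles), W.cl _ ((ops.pull (pairMap f f'))^[m] z) =
      (W.map (pairMap f f'))^[m] (W.cl _ z) := by
    intro m
    induction m with
    | zero => intro z; rfl
    | succ m ih =>
      intro z
      rw [Function.iterate_succ_apply', Function.iterate_succ_apply', W.cl_pull, ih]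
  rw [hpull] at hm'
  have hQ : (q : W.K) ^ s ≠ 0 := pow_ne_zero _ (by exact_mod_cast hq)
  refine mem_mixSpan (Z := {z : W.K // ∃ i, aeval z (weil q (polys g x i)) = 0}) f f'
    (fun z => (z : W.K) ^ s) ((q : W.K) ^ s) hQ hA.generated (eigen_span hA) hA.tate ?_ m i hm _ ?_
  · intro ρ hρ
    exact exactPair_field_over g E hq r hr x hx s hs χ hχ hrank ρ (root_of_rank hχ0 hρ)
  · rw [hm']
    congr 1
    push_cast
    rw [← pow_mul, mul_comm m i]
    ring

theorem tens_over [IsAlgClosed W.K] {s : ℕ} (hs : 0 < s) {A : Polarized 𝒱}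
    {f : A.X ⟶ A.X}
    (hA : IsAbelianFrobenius W q s (fun i => weil q (polys g x i)) A f) {f' : Y ⟶ Y}
    (hY : HasRankOver E r (W.map f'))
    (hF : FrobeniusOnCycles W (A.X.prod Y) (pairMap f f') (q ^ s)) (z)
    (hz : AS W (A.X.prod Y) z) : z ∈ tens W A.X Y := by
  have hAD := homEqNum_abelian g hq r hr x (good_of_goodU hx) hs hA
  refine mem_tens hAD hz ?_
  refine AS.ind (p := fun z => z ∈ mixSpan W A.X Y) ?_ ?_ hz
  · rintro i _ ⟨w, hw, rfl⟩
    exact alg_mem_mix_over g E hq r hr x hx hs hA hY hF i w hw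
  · intro a b ha hb
    exact Submodule.add_mem _ ha hb

theorem numForRankOver_of_good :
    NumForRankOver.{u, v} E q r (fun i => weil q (polys g x i)) := by
  intro k _ _ 𝒱 ops W _ s hs A Y f f' hA hY hF
  have hAD := homEqNum_abelian g hq r hr x (good_of_goodU hx) hs hA
  have hS := tens_over g E hq r hr x hx hs hA hY hF
  have h1 : (1 : W.H A.X) ≠ 0 := one_ne_deg hA.divisor hA.degree
  exact ⟨(clSplit_of_tens hS).cyclesSplit, hAD, homEqNum_prod_iff hS hAD h1⟩

theorem lefschetzForRankOver_of_good :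
    LefschetzForRankOver.{u, v} E q r (fun i => weil q (polys g x i)) := by
  intro k _ _ 𝒱 ops W _ s hs A U f f' hA hY hF h1
  have hAD := homEqNum_abelian g hq r hr x (good_of_goodU hx) hs hA
  have hsplit := clSplit_of_tens (tens_over g E hq r hr x hx hs hA hY hF)
  refine ⟨fun C hC => ?_, fun C D B hC hS hHL => ?_⟩
  · obtain ⟨D, B, hD, hB, hDB⟩ := div_split hsplit hC
    exact ⟨D, B, hD, hB, by rw [HomEq, hDB, map_add, W.cl_pull, W.cl_pull]⟩
  · obtain ⟨hD, hB, hDB⟩ := hS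
    rw [HomEq, map_add, W.cl_pull, W.cl_pull] at hDB
    rw [NonzeroFund, HomEq, W.cl_fund, map_zero] at h1
    have hX1 : (1 : W.H A.X) ≠ 0 := by
      intro h0
      apply h1
      rw [← map_one (W.map (fst A.X U)), h0, map_zero]
    have hU1 : (1 : W.H U) ≠ 0 := by
      intro h0
      apply h1
      rw [← map_one (W.map (snd A.X U)), h0, map_zero]
    have hHX := hl_left hD hB hDB hHL hU1
    have hHU := hl_right hB hD hDB hHL hX1
    exact ⟨hHX, hHU, lefschetzA_prod_iff hsplit hD hB hC hDB hHX hHU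
      (lefschetzA_of_D hD hHX hAD) hX1⟩

theorem hodgeForRankOver_of_good :
    HodgeForRankOver.{u, v} E q r (fun i => weil q (polys g x i)) := by
  intro k _ _ 𝒱 ops W _ s hs A Y f f' hA hY hF hLA hYD hLY hHA
  have hAD := homEqNum_abelian g hq r hr x (good_of_goodU hx) hs hA
  have hS := tens_over g E hq r hr x hx hs hA hY hF
  have h1 : (1 : W.H A.X) ≠ 0 := one_ne_deg hA.divisor hA.degree
  obtain ⟨f₁, F, hf⟩ := exists_lw hA.divisor hLA
  obtain ⟨g₁, G, hg⟩ := exists_lw hYD hLY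
  have hst : Stable W A.X f₁ := stable_of_lefschetzA F.hD F.sl2 (lefschetzA_of_D F.hD hLA hAD)
  exact ⟨fun h => hodge_of_prod F G hHA h1 h, fun h => hodge_prod_of hS F hf hLA hst hHA G hg h⟩

end

end Pool.Agent.N205.NS
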